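import Mathlib
import Pool.Agent.Sq58.Holo
set_option autoImplicit false

namespace Sq58


open Metric Set Filter Topology

/-- Holomorphic inverse of an injective holomorphic immersion (equal finite dimensions). -/
theorem inverse_holo {E : Type*} [NormedAddCommGroup E] [NormedSpace ℂ E] [FiniteDimensional ℂ E]
    {D : Set E} (hD : IsOpen D) {f : E → E} (hf : DifferentiableOn ℂ f D) (hinj : InjOn f D)
    (hder : ∀ z ∈ D, Function.Injective (fderiv ℂ f z)) {R : ℝ} (hsub : ball 0 R ⊆ f '' D) :
    ∃ g : E → E, DifferentiableOn ℂ g (ball 0 R) ∧ MapsTo g (ball 0 R) D ∧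
      ∀ x ∈ D, ‖f x‖ < R → g (f x) = x := by
  haveI : CompleteSpace E := FiniteDimensional.complete ℂ E
  have hgmem : ∀ y ∈ f '' D, Function.invFunOn f D y ∈ D ∧ f (Function.invFunOn f D y) = y :=
    fun y hy => ⟨Function.invFunOn_mem hy, Function.invFunOn_eq hy⟩
  refine ⟨Function.invFunOn f D, ?_, ?_, ?_⟩
  · intro y hy
    have hyim := hsub hy
    obtain ⟨hx, hfx⟩ := hgmem y hyim
    generalize hxd : Function.invFunOn f D y = x at hx hfx
    have hc : ContDiffAt ℂ 1 f x := by
      have := (Sq58.Holo.contDiffOn_of_differentiableOn hD hf 1).contDiffAt (hD.mem_nhds hx)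
      exact_mod_cast this
    have hs : HasStrictFDerivAt f (fderiv ℂ f x) x := hc.hasStrictFDerivAt (by norm_num)
    let L : E ≃ₗ[ℂ] E := LinearEquiv.ofInjectiveEndo (fderiv ℂ f x : E →ₗ[ℂ] E) (hder x hx)
    let e : E ≃L[ℂ] E := L.toContinuousLinearEquiv
    have he : (e : E →L[ℂ] E) = fderiv ℂ f x := by
      ext v
      rfl
    have hs' : HasStrictFDerivAt f (e : E →L[ℂ] E) x := by
      rw [he]
      exact hs
    have h1 := hs'.to_localInverse
    have h2 : hs'.localInverse f e x (f x) = x := hs'.localInverse_apply_image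
    have h3 : ∀ᶠ y' in 𝓝 (f x), f (hs'.localInverse f e x y') = y' :=
      hs'.eventually_right_inverse
    have h4 : Tendsto (hs'.localInverse f e x) (𝓝 (f x)) (𝓝 x) := by
      have := h1.continuousAt.tendsto
      rwa [h2] at this
    have h5 : ∀ᶠ y' in 𝓝 (f x), hs'.localInverse f e x y' ∈ D := h4 (hD.mem_nhds hx)
    have h6 : ∀ᶠ y' in 𝓝 (f x), y' ∈ ball (0 : E) R := by
      rw [hfx]
      exact isOpen_ball.mem_nhds hy
    have h7 : Function.invFunOn f D =ᶠ[𝓝 (f x)] hs'.localInverse f e x := by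
      filter_upwards [h3, h5, h6] with y' a b c
      obtain ⟨p, q⟩ := hgmem y' (hsub c)
      exact hinj p b (q.trans a.symm)
    rw [hfx] at h7 h1
    exact ((h1.hasFDerivAt.congr_of_eventuallyEq h7).differentiableAt).differentiableWithinAt
  · intro y hy
    exact (hgmem y (hsub hy)).1
  · intro x hx hxR
    obtain ⟨p, q⟩ := hgmem _ (mem_image_of_mem f hx)
    exact hinj p hx q

end Sq58
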