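import Mathlib
set_option autoImplicit false

open Metric Set Filter Topology

namespace Sq58

/-- Schwarz lemma for maps of a disc into the right half plane. -/
theorem cayley_mapsTo {h : ℂ → ℂ} {R : ℝ} (hR : 0 < R)
    (hpos : ∀ z ∈ ball (0 : ℂ) R, 0 < (h z).re) {z : ℂ} (hz : z ∈ ball (0 : ℂ) R) :
    ‖h z - h 0‖ < ‖h z + (starRingEnd ℂ) (h 0)‖ := by
  have h1 := hpos z hz
  have h2 := hpos 0 (mem_ball_self hR)
  have e1 : ‖h z - h 0‖ ^ 2 = ((h z).re - (h 0).re) ^ 2 + ((h z).im - (h 0).im) ^ 2 := by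
    rw [← Complex.normSq_eq_norm_sq, Complex.normSq_apply]
    simp only [Complex.sub_re, Complex.sub_im]; ring
  have e2 : ‖h z + (starRingEnd ℂ) (h 0)‖ ^ 2
      = ((h z).re + (h 0).re) ^ 2 + ((h z).im - (h 0).im) ^ 2 := by
    rw [← Complex.normSq_eq_norm_sq, Complex.normSq_apply]
    simp only [Complex.add_re, Complex.add_im, Complex.conj_re, Complex.conj_im]; ring
  have e3 : ‖h z - h 0‖ ^ 2 < ‖h z + (starRingEnd ℂ) (h 0)‖ ^ 2 := by
    rw [e1, e2]; nlinarith [mul_pos h1 h2]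
  exact lt_of_pow_lt_pow_left₀ 2 (norm_nonneg _) e3

theorem schwarz_halfplane {h : ℂ → ℂ} {R : ℝ} (hR : 0 < R)
    (hd : DifferentiableOn ℂ h (ball 0 R))
    (hpos : ∀ z ∈ ball (0 : ℂ) R, 0 < (h z).re) :
    (∀ z ∈ ball (0 : ℂ) R, R * ‖h z - h 0‖ ≤ ‖z‖ * ‖h z + (starRingEnd ℂ) (h 0)‖) ∧
      R * ‖deriv h 0‖ ≤ 2 * (h 0).re := by
  have h2 := hpos 0 (mem_ball_self hR)
  set φ : ℂ → ℂ := fun z => (h z - h 0) / (h z + (starRingEnd ℂ) (h 0)) with hφ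
  have hne : ∀ z ∈ ball (0 : ℂ) R, h z + (starRingEnd ℂ) (h 0) ≠ 0 := by
    intro z hz hc
    have := cayley_mapsTo hR hpos hz
    rw [hc, norm_zero] at this
    exact absurd this (not_lt.2 (norm_nonneg _))
  have hφd : DifferentiableOn ℂ φ (ball 0 R) := by
    apply DifferentiableOn.div (hd.sub (differentiableOn_const _))
      (hd.add (differentiableOn_const _)) hne
  have hφ0 : φ 0 = 0 := by simp [hφ]
  have hφm : MapsTo φ (ball 0 R) (closedBall (φ 0) 1) := by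
    intro z hz
    rw [hφ0, mem_closedBall, dist_zero_right]
    simp only [hφ, norm_div]
    rw [div_le_one (norm_pos_iff.2 (hne z hz))]
    exact (cayley_mapsTo hR hpos hz).le
  constructor
  · intro z hz
    have := Complex.dist_le_div_mul_dist_of_mapsTo_ball hφd hφm hz
    rw [hφ0, dist_zero_right, dist_zero_right] at this
    simp only [hφ, norm_div] at this
    rw [div_le_iff₀ (norm_pos_iff.2 (hne z hz))] at this
    calc R * ‖h z - h 0‖ ≤ R * (1 / R * ‖z‖ * ‖h z + (starRingEnd ℂ) (h 0)‖) := by gcongr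
      _ = _ := by field_simp
  · have h0d : DifferentiableAt ℂ h 0 := hd.differentiableAt (ball_mem_nhds _ hR)
    have hder : deriv φ 0 = deriv h 0 / (h 0 + (starRingEnd ℂ) (h 0)) := by
      have hh := h0d.hasDerivAt
      have := ((hh.sub_const (h 0)).div (hh.add_const ((starRingEnd ℂ) (h 0)))
        (hne 0 (mem_ball_self hR))).deriv
      have e : φ = ((fun x => h x - h 0) / fun x => h x + (starRingEnd ℂ) (h 0)) := by
        ext x; simp [hφ]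
      rw [e, this]
      have := hne 0 (mem_ball_self hR)
      field_simp
      ring
    have h3 := Complex.norm_deriv_le_div_of_mapsTo_ball hφd hφm hR
    have e4 : h 0 + (starRingEnd ℂ) (h 0) = ((2 * (h 0).re : ℝ) : ℂ) := by
      rw [Complex.add_conj]
    rw [hder, e4, norm_div, Complex.norm_real, Real.norm_of_nonneg (by positivity),
      div_le_iff₀ (by positivity)] at h3
    calc R * ‖deriv h 0‖ ≤ R * (1 / R * (2 * (h 0).re)) := by gcongr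
      _ = _ := by field_simp

section Parseval

variable {E : Type*} [NormedAddCommGroup E] [InnerProductSpace ℂ E] [CompleteSpace E]

theorem parseval_aux {H : ℂ → E} {r : ℝ} 
    (hd : DifferentiableOn ℂ H (ball 0 r)) (hm : MapsTo H (ball 0 r) (closedBall 0 1))
    {ρ : ℝ} (hρr : ρ < r) {η : ℂ} (hη : ‖η‖ < ρ) (hη0 : η ≠ 0) :
    ‖H 0‖ ^ 2 + ρ ^ 2 * ‖η⁻¹ • (H η - H 0)‖ ^ 2 ≤ 1 + 2 * ‖η‖ * ‖η⁻¹ • (H η - H 0)‖ := by
  have hρ : 0 < ρ := (norm_nonneg _).trans_lt hη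
  have hr : 0 < r := hρ.trans hρr
  set a := H 0 with ha
  set k := η⁻¹ • (H η - H 0) with hk
  have ha1 : ‖a‖ ≤ 1 := by
    have := hm (mem_ball_self hr)
    rwa [mem_closedBall, dist_zero_right] at this
  have hDd : DifferentiableOn ℂ (dslope H 0) (ball 0 r) :=
    (Complex.differentiableOn_dslope (ball_mem_nhds _ hr)).2 hd
  set Ψ : ℂ → ℂ := fun ζ => ((‖a‖ ^ 2 : ℝ) : ℂ) + 2 * ζ * inner ℂ a (dslope H 0 ζ)
    + 2 * ((ρ ^ 2 : ℝ) : ℂ) * inner ℂ k (dslope H 0 ζ) - ((ρ ^ 2 * ‖k‖ ^ 2 : ℝ) : ℂ) with hΨ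
  have hin : ∀ c : E, DifferentiableOn ℂ (fun ζ => inner ℂ c (dslope H 0 ζ)) (ball 0 r) := by
    intro c
    exact (innerSL ℂ c).differentiable.comp_differentiableOn hDd
  have hΨd : DifferentiableOn ℂ Ψ (ball 0 r) := by
    have h1 := hin a
    have h2 := hin k
    simp only [hΨ]
    fun_prop
  have hslope : ∀ ζ : ℂ, ζ ≠ 0 → dslope H 0 ζ = ζ⁻¹ • (H ζ - a) := by
    intro ζ hζ
    rw [dslope_of_ne _ hζ, slope_def_module, sub_zero]
  have hbound : ∀ ζ ∈ sphere (0 : ℂ) ρ, (Ψ ζ).re ≤ 1 := by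
    intro ζ hζ
    rw [mem_sphere, dist_zero_right] at hζ
    have hζ0 : ζ ≠ 0 := by rintro rfl; simp at hζ; linarith
    set δ := dslope H 0 ζ with hδ
    have hH : H ζ = a + ζ • δ := by
      rw [hδ, hslope ζ hζ0, smul_smul, mul_inv_cancel₀ hζ0, one_smul]; abel
    have hH1 : ‖H ζ‖ ≤ 1 := by
      have := hm (show ζ ∈ ball (0 : ℂ) r by rw [mem_ball, dist_zero_right, hζ]; exact hρr)
      rwa [mem_closedBall, dist_zero_right] at this
    have e1 : ‖H ζ‖ ^ 2 = ‖a‖ ^ 2 + 2 * (inner ℂ a (ζ • δ)).re + ρ ^ 2 * ‖δ‖ ^ 2 := by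
      rw [hH, @norm_add_sq ℂ, norm_smul, hζ]
      simp only [RCLike.re_to_complex]
      ring
    have e2 : ‖δ - k‖ ^ 2 = ‖δ‖ ^ 2 - 2 * (inner ℂ k δ).re + ‖k‖ ^ 2 := by
      rw [@norm_sub_sq ℂ]
      simp only [RCLike.re_to_complex]
      have : (inner ℂ δ k).re = (inner ℂ k δ).re := by
        rw [← inner_conj_symm, Complex.conj_re]
      rw [this]
    have e3 : (Ψ ζ).re = ‖a‖ ^ 2 + 2 * (inner ℂ a (ζ • δ)).re + 2 * ρ ^ 2 * (inner ℂ k δ).re
        - ρ ^ 2 * ‖k‖ ^ 2 := by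
      simp only [hΨ, ← hδ]
      rw [inner_smul_right]
      simp only [Complex.sub_re, Complex.add_re, Complex.ofReal_re]
      have t1 : (2 * ζ * inner ℂ a δ).re = 2 * (ζ * inner ℂ a δ).re := by
        rw [mul_assoc]; simp
      have t2 : (2 * ((ρ ^ 2 : ℝ) : ℂ) * inner ℂ k δ).re = 2 * ρ ^ 2 * (inner ℂ k δ).re := by
        have : (2 * ((ρ ^ 2 : ℝ) : ℂ) * inner ℂ k δ) = ((2 * ρ ^ 2 : ℝ) : ℂ) * inner ℂ k δ := by
          push_cast; ring
        rw [this, Complex.re_ofReal_mul]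
      rw [t1, t2]
    have e4 : (Ψ ζ).re = ‖H ζ‖ ^ 2 - ρ ^ 2 * ‖δ - k‖ ^ 2 := by
      rw [e3, e1, e2]; ring
    rw [e4]
    have : ‖H ζ‖ ^ 2 ≤ 1 := by nlinarith [norm_nonneg (H ζ)]
    nlinarith [sq_nonneg (ρ * ‖δ - k‖)]
  have hmax : (Ψ η).re ≤ 1 := by
    have hcl : closedBall (0 : ℂ) ρ ⊆ ball 0 r := closedBall_subset_ball hρr
    have hdc : DiffContOnCl ℂ (fun ζ => Complex.exp (Ψ ζ)) (ball 0 ρ) := by
      apply DifferentiableOn.diffContOnCl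
      rw [closure_ball _ hρ.ne']
      exact (hΨd.mono hcl).cexp
    have := Complex.norm_le_of_forall_mem_frontier_norm_le (U := ball (0 : ℂ) ρ) isBounded_ball hdc
      (C := Real.exp 1) (by
        intro z hz
        rw [frontier_ball _ hρ.ne'] at hz
        rw [Complex.norm_exp]
        exact Real.exp_le_exp.2 (hbound z hz)) (z := η) (subset_closure (by
          rw [mem_ball, dist_zero_right]; exact hη))
    rw [Complex.norm_exp] at this
    exact Real.exp_le_exp.1 this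
  have hval : (Ψ η).re = ‖a‖ ^ 2 + 2 * (η * inner ℂ a k).re + ρ ^ 2 * ‖k‖ ^ 2 := by
    simp only [hΨ]
    rw [hslope η hη0, ← hk]
    simp only [Complex.sub_re, Complex.add_re, Complex.ofReal_re]
    have t1 : (2 * η * inner ℂ a k).re = 2 * (η * inner ℂ a k).re := by
      rw [mul_assoc]; simp
    have t2 : (2 * ((ρ ^ 2 : ℝ) : ℂ) * inner ℂ k k).re = 2 * ρ ^ 2 * ‖k‖ ^ 2 := by
      rw [inner_self_eq_norm_sq_to_K]
      have : (2 * ((ρ ^ 2 : ℝ) : ℂ) * ((‖k‖ : ℂ) ^ 2)) = ((2 * ρ ^ 2 * ‖k‖ ^ 2 : ℝ) : ℂ) := by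
        push_cast; ring
      erw [this]
      exact Complex.ofReal_re _
    rw [t1, t2]; ring
  have hlow : -(‖η‖ * ‖k‖) ≤ (η * inner ℂ a k).re := by
    have h1 : ‖η * inner ℂ a k‖ ≤ ‖η‖ * ‖k‖ := by
      rw [norm_mul]
      have := norm_inner_le_norm (𝕜 := ℂ) a k
      calc ‖η‖ * ‖inner ℂ a k‖ ≤ ‖η‖ * (‖a‖ * ‖k‖) := by gcongr
        _ ≤ ‖η‖ * (1 * ‖k‖) := by gcongr
        _ = _ := by ring
    have h2 := Complex.abs_re_le_norm (η * inner ℂ a k)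
    have h3 := neg_abs_le (η * inner ℂ a k).re
    linarith
  rw [hval] at hmax
  linarith

theorem parseval {H : ℂ → E} {r : ℝ} 
    (hd : DifferentiableOn ℂ H (ball 0 r)) (hm : MapsTo H (ball 0 r) (closedBall 0 1))
    {η : ℂ} (hη : ‖η‖ < r) (hη0 : η ≠ 0) :
    ‖H 0‖ ^ 2 + r ^ 2 * ‖η⁻¹ • (H η - H 0)‖ ^ 2 ≤ 1 + 2 * ‖η‖ * ‖η⁻¹ • (H η - H 0)‖ := by
  have h1 : Tendsto (fun ρ : ℝ => ‖H 0‖ ^ 2 + ρ ^ 2 * ‖η⁻¹ • (H η - H 0)‖ ^ 2) (𝓝[<] r)
      (𝓝 (‖H 0‖ ^ 2 + r ^ 2 * ‖η⁻¹ • (H η - H 0)‖ ^ 2)) := by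
    apply Tendsto.mono_left _ nhdsWithin_le_nhds
    apply Continuous.tendsto
    fun_prop
  apply le_of_tendsto h1
  filter_upwards [Ioo_mem_nhdsLT hη] with ρ hρ
  exact parseval_aux hd hm hρ.2 hρ.1 hη0

end Parseval

end Sq58
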