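import Mathlib
import Pool.Agent.Sq58.Schwarz
set_option autoImplicit false
set_option linter.unusedSectionVars false

open Metric Set Filter Topology

namespace Sq58

variable {E : Type*} [NormedAddCommGroup E] [InnerProductSpace ℂ E] [CompleteSpace E]

/-- Lower bound for `‖f‖` along a disc which is vertical for a supporting functional. -/
theorem core_lower {D : Set E} {f g : E → E} {R : ℝ} (hR : 0 < R)
    (hg : DifferentiableOn ℂ g (ball 0 R)) (hgm : MapsTo g (ball 0 R) D)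
    (hgf : ∀ x ∈ D, ‖f x‖ < R → g (f x) = x)
    {z0 : E} (hz0 : z0 ∈ D) (hf0 : f z0 = 0)
    {Λ : E →L[ℂ] ℂ} {h : ℝ} (hh : 0 < h) (hΛ : ∀ z ∈ D, 0 < h - (Λ (z - z0)).re) {m : E}
    (hm : Λ m = -1) {w : ℂ} (hw : ‖w‖ < 1) (hzw : z0 + (2 * w / (1 - w) * h) • m ∈ D) :
    R * ‖w‖ ≤ ‖f (z0 + (2 * w / (1 - w) * h) • m)‖ := by
  set zw := z0 + (2 * w / (1 - w) * h) • m with hzwdef
  by_cases hlt : ‖f zw‖ < R
  swap
  · have : R * ‖w‖ ≤ R * 1 := by gcongr
    linarith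
  have hw1 : (1 : ℂ) - w ≠ 0 := by
    intro hc
    have : w = 1 := by linear_combination -hc
    rw [this, norm_one] at hw
    exact lt_irrefl _ hw
  set y := f zw with hy
  set u : E := ((‖y‖⁻¹ : ℝ) : ℂ) • y with hu
  have hu1 : ‖u‖ ≤ 1 := by
    rw [hu, norm_smul, Complex.norm_real, norm_inv, norm_norm]
    exact inv_mul_le_one
  have hyu : ((‖y‖ : ℝ) : ℂ) • u = y := by
    rw [hu, smul_smul, ← Complex.ofReal_mul]
    by_cases hy0 : y = 0
    · rw [hy0]; simp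
    · rw [mul_inv_cancel₀ (norm_ne_zero_iff.2 hy0)]; simp
  have hmem : ∀ l ∈ ball (0 : ℂ) R, l • u ∈ ball (0 : E) R := by
    intro l hl
    rw [mem_ball, dist_zero_right] at *
    rw [norm_smul]
    calc ‖l‖ * ‖u‖ ≤ ‖l‖ * 1 := by gcongr
      _ < R := by linarith
  set h1 : ℂ → ℂ := fun l => (h : ℂ) - Λ (g (l • u) - z0) with hh1
  have hd1 : DifferentiableOn ℂ h1 (ball 0 R) := by
    intro l hl
    have e1 : DifferentiableAt ℂ g (l • u) := hg.differentiableAt (isOpen_ball.mem_nhds (hmem l hl))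
    have e2 : DifferentiableAt ℂ (fun l : ℂ => l • u) l := by fun_prop
    have e3 : DifferentiableAt ℂ (fun l : ℂ => g (l • u)) l := DifferentiableAt.comp l e1 e2
    apply DifferentiableAt.differentiableWithinAt
    simp only [hh1]
    fun_prop
  have hpos : ∀ z ∈ ball (0 : ℂ) R, 0 < (h1 z).re := by
    intro l hl
    have := hΛ _ (hgm (hmem l hl))
    simpa [hh1] using this
  have hg0 : g 0 = z0 := by
    have := hgf z0 hz0 (by rw [hf0, norm_zero]; exact hR)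
    rwa [hf0] at this
  have key := (schwarz_halfplane hR hd1 hpos).1 ((‖y‖ : ℝ) : ℂ) (by
    rw [mem_ball, dist_zero_right, Complex.norm_real, norm_norm]; exact hlt)
  have e0 : h1 0 = h := by simp [hh1, hg0]
  have e1 : h1 ((‖y‖ : ℝ) : ℂ) = h + 2 * w / (1 - w) * h := by
    simp only [hh1]
    rw [hyu, hy, hgf zw hzw hlt, hzwdef]
    simp only [add_sub_cancel_left, map_smul, hm, smul_eq_mul]
    ring
  rw [e0, e1, Complex.conj_ofReal, Complex.norm_real, norm_norm] at key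
  have e2 : (h : ℂ) + 2 * w / (1 - w) * h - h = w * (2 * h / (1 - w)) := by
    field_simp; ring
  have e3 : (h : ℂ) + 2 * w / (1 - w) * h + h = 2 * h / (1 - w) := by
    field_simp; ring
  rw [e2, e3, norm_mul] at key
  have hpos2 : 0 < ‖(2 * h / (1 - w) : ℂ)‖ := by
    rw [norm_pos_iff]
    have : (h : ℂ) ≠ 0 := by exact_mod_cast hh.ne'
    exact div_ne_zero (mul_ne_zero two_ne_zero this) hw1
  rw [← mul_assoc] at key
  exact le_of_mul_le_mul_right key hpos2

/-- Upper bound for the difference quotients. -/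
theorem core_upper_circle {D : Set E} (hDo : IsOpen D) {f : E → E} {A : ℝ} (hA : 0 ≤ A)
    (hf : DifferentiableOn ℂ f D) (hfm : MapsTo f D (ball 0 1))
    {z v : E} {r : ℝ} (hr : 0 < r) (hdisc : ∀ ζ : ℂ, ‖ζ‖ < r → z + ζ • v ∈ D)
    (hlow : A ≤ ‖f z‖) {η : ℂ} (hη : ‖η‖ < r) (hη0 : η ≠ 0) :
    r * ‖η⁻¹ • (f (z + η • v) - f z)‖ ≤ Real.sqrt (1 - A ^ 2 + 4 * ‖η‖ / r) := by
  set H : ℂ → E := fun ζ => f (z + ζ • v) with hH
  have hHd : DifferentiableOn ℂ H (ball 0 r) := by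
    intro ζ hζ
    rw [mem_ball, dist_zero_right] at hζ
    have e1 : DifferentiableAt ℂ f (z + ζ • v) := hf.differentiableAt (hDo.mem_nhds (hdisc ζ hζ))
    have e2 : DifferentiableAt ℂ (fun ζ : ℂ => z + ζ • v) ζ := by fun_prop
    exact (DifferentiableAt.comp ζ e1 e2).differentiableWithinAt
  have hHm : MapsTo H (ball 0 r) (closedBall 0 1) := by
    intro ζ hζ
    rw [mem_ball, dist_zero_right] at hζ
    exact ball_subset_closedBall (hfm (hdisc ζ hζ))
  have hH0 : H 0 = f z := by simp [hH]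
  have hP := parseval hHd hHm hη hη0
  rw [hH0] at hP
  set k := η⁻¹ • (H η - f z) with hk
  have hk2 : ‖k‖ ≤ 2 / r := by
    have hmaps : MapsTo H (ball 0 r) (closedBall (H 0) 2) := by
      intro ζ hζ
      rw [mem_closedBall]
      have h1 := hHm hζ
      have h2 := hHm (mem_ball_self hr)
      rw [mem_closedBall, dist_zero_right] at h1 h2
      rw [dist_eq_norm]
      linarith [norm_sub_le (H ζ) (H 0)]
    have := Complex.dist_le_div_mul_dist_of_mapsTo_ball hHd hmaps (z := η) (by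
      rw [mem_ball, dist_zero_right]; exact hη)
    rw [dist_eq_norm, dist_zero_right, hH0] at this
    rw [hk, norm_smul, norm_inv]
    have hηp : 0 < ‖η‖ := norm_pos_iff.2 hη0
    rw [inv_mul_le_iff₀ hηp]
    linarith
  have h1 : A ^ 2 ≤ ‖f z‖ ^ 2 := by gcongr
  have h2 : 2 * ‖η‖ * ‖k‖ ≤ 4 * ‖η‖ / r := by
    calc 2 * ‖η‖ * ‖k‖ ≤ 2 * ‖η‖ * (2 / r) := by gcongr
      _ = _ := by ring
  have h3 : (r * ‖k‖) ^ 2 ≤ 1 - A ^ 2 + 4 * ‖η‖ / r := by
    rw [mul_pow]; linarith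
  exact Real.le_sqrt_of_sq_le h3

theorem core_upper {D : Set E} (hDo : IsOpen D) {f : E → E} {A : ℝ} (hA : 0 ≤ A)
    (hf : DifferentiableOn ℂ f D) (hfm : MapsTo f D (ball 0 1))
    {z0 m v : E} {h r t : ℝ} (hr : 0 < r) (ht0 : 0 < t) (ht1 : t < 1)
    (hdisc : ∀ w : ℂ, ‖w‖ ≤ t → ∀ ζ : ℂ, ‖ζ‖ < r → z0 + (2 * w / (1 - w) * h) • m + ζ • v ∈ D)
    (hlow : ∀ w : ℂ, ‖w‖ = t → A ≤ ‖f (z0 + (2 * w / (1 - w) * h) • m)‖) :
    r * ‖fderiv ℂ f z0 v‖ ≤ Real.sqrt (1 - A ^ 2) := by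
  have hz0 : z0 ∈ D := by
    have := hdisc 0 (by simpa using ht0.le) 0 (by simpa using hr)
    simpa using this
  have hstep : ∀ η : ℂ, ‖η‖ < r → η ≠ 0 →
      r * ‖η⁻¹ • (f (z0 + η • v) - f z0)‖ ≤ Real.sqrt (1 - A ^ 2 + 4 * ‖η‖ / r) := by
    intro η hη hη0
    set G : ℂ → E := fun w => η⁻¹ • (f (z0 + (2 * w / (1 - w) * h) • m + η • v)
      - f (z0 + (2 * w / (1 - w) * h) • m)) with hG
    have hGd : DiffContOnCl ℂ G (ball 0 t) := by
      apply DifferentiableOn.diffContOnCl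
      rw [closure_ball _ ht0.ne']
      intro w hw
      rw [mem_closedBall, dist_zero_right] at hw
      have hw1 : (1 : ℂ) - w ≠ 0 := by
        intro hc
        have : w = 1 := by linear_combination -hc
        rw [this, norm_one] at hw
        linarith
      have e2 : DifferentiableAt ℂ (fun w : ℂ => z0 + (2 * w / (1 - w) * h) • m) w := by
        have : DifferentiableAt ℂ (fun w : ℂ => 2 * w / (1 - w)) w := by
          apply DifferentiableAt.div (by fun_prop) (by fun_prop) hw1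
        fun_prop
      have e3 : DifferentiableAt ℂ (fun w : ℂ => z0 + (2 * w / (1 - w) * h) • m + η • v) w := by
        fun_prop
      have e1 : DifferentiableAt ℂ f (z0 + (2 * w / (1 - w) * h) • m + η • v) :=
        hf.differentiableAt (hDo.mem_nhds (hdisc w hw η hη))
      have e1' : DifferentiableAt ℂ f (z0 + (2 * w / (1 - w) * h) • m) :=
        hf.differentiableAt (hDo.mem_nhds (by
          have := hdisc w hw 0 (by simpa using hr)
          simpa using this))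
      have e4 : DifferentiableAt ℂ (fun w : ℂ => f (z0 + (2 * w / (1 - w) * h) • m + η • v)) w :=
        DifferentiableAt.comp w e1 e3
      have e5 : DifferentiableAt ℂ (fun w : ℂ => f (z0 + (2 * w / (1 - w) * h) • m)) w :=
        DifferentiableAt.comp w e1' e2
      exact ((e4.sub e5).const_smul _).differentiableWithinAt
    have hmax := Complex.norm_le_of_forall_mem_frontier_norm_le (U := ball (0 : ℂ) t)
      isBounded_ball hGd (C := Real.sqrt (1 - A ^ 2 + 4 * ‖η‖ / r) / r) (by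
        intro w hw
        rw [frontier_ball _ ht0.ne', mem_sphere, dist_zero_right] at hw
        have := core_upper_circle hDo hA hf hfm (z := z0 + (2 * w / (1 - w) * h) • m) (v := v) hr
          (hdisc w hw.le) (hlow w hw) hη hη0
        rw [le_div_iff₀ hr, mul_comm]
        exact this) (z := 0) (subset_closure (mem_ball_self ht0))
    rw [le_div_iff₀ hr, mul_comm] at hmax
    simpa [hG] using hmax
  -- limit
  have hfd : HasFDerivAt f (fderiv ℂ f z0) z0 :=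
    (hf.differentiableAt (hDo.mem_nhds hz0)).hasFDerivAt
  have hline : HasDerivAt (fun η : ℂ => f (z0 + η • v)) (fderiv ℂ f z0 v) 0 := by
    have h1 : HasDerivAt (fun η : ℂ => z0 + η • v) v 0 := by
      have := ((hasDerivAt_id (0 : ℂ)).smul_const v).const_add z0
      simpa using this
    have h2 : HasFDerivAt f (fderiv ℂ f z0) (z0 + (0 : ℂ) • v) := by simpa using hfd
    exact h2.comp_hasDerivAt (0 : ℂ) h1
  have hlim := hline.tendsto_slope_zero
  simp only [zero_add, zero_smul, add_zero] at hlim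
  have hl2 : Tendsto (fun η : ℂ => r * ‖η⁻¹ • (f (z0 + η • v) - f z0)‖) (𝓝[≠] 0)
      (𝓝 (r * ‖fderiv ℂ f z0 v‖)) := (hlim.norm).const_mul r
  have hl3 : Tendsto (fun η : ℂ => Real.sqrt (1 - A ^ 2 + 4 * ‖η‖ / r)) (𝓝[≠] 0)
      (𝓝 (Real.sqrt (1 - A ^ 2))) := by
    have : Tendsto (fun η : ℂ => Real.sqrt (1 - A ^ 2 + 4 * ‖η‖ / r)) (𝓝 0)
      (𝓝 (Real.sqrt (1 - A ^ 2 + 4 * ‖(0 : ℂ)‖ / r))) := by
      apply Continuous.tendsto
      fun_prop
    rw [norm_zero, mul_zero, zero_div, add_zero] at this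
    exact this.mono_left nhdsWithin_le_nhds
  refine le_of_tendsto_of_tendsto hl2 hl3 ?_
  have : ∀ᶠ η : ℂ in 𝓝[≠] 0, ‖η‖ < r := by
    apply nhdsWithin_le_nhds
    filter_upwards [ball_mem_nhds (0 : ℂ) hr] with η hη
    rwa [mem_ball, dist_zero_right] at hη
  filter_upwards [this, self_mem_nhdsWithin] with η h1 h2
  exact hstep η h1 h2

/-- Lower bound for the derivative in the direction `v`. -/
theorem core_deriv_lower {D : Set E} (hDo : IsOpen D) (hDc : Convex ℝ D) {f g : E → E} {R : ℝ}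
    (hR : 0 < R) (hf : DifferentiableOn ℂ f D)
    (hg : DifferentiableOn ℂ g (ball 0 R)) (hgm : MapsTo g (ball 0 R) D)
    (hgf : ∀ x ∈ D, ‖f x‖ < R → g (f x) = x)
    {z0 : E} (hz0 : z0 ∈ D) (hf0 : f z0 = 0) {v : E} {ζ0 : ℂ} (hζ0 : z0 + ζ0 • v ∉ D) :
    R ≤ 2 * ‖ζ0‖ * ‖fderiv ℂ f z0 v‖ := by
  have hg0 : g 0 = z0 := by
    have := hgf z0 hz0 (by rw [hf0, norm_zero]; exact hR)
    rwa [hf0] at this
  have hv0 : v ≠ 0 := by
    rintro rfl
    apply hζ0
    simpa using hz0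
  have hfd : HasFDerivAt f (fderiv ℂ f z0) z0 :=
    (hf.differentiableAt (hDo.mem_nhds hz0)).hasFDerivAt
  have hgd : HasFDerivAt g (fderiv ℂ g 0) (f z0) := by
    rw [hf0]
    exact (hg.differentiableAt (ball_mem_nhds _ hR)).hasFDerivAt
  have hcomp : (fderiv ℂ g 0).comp (fderiv ℂ f z0) = ContinuousLinearMap.id ℂ E := by
    have h1 : HasFDerivAt (g ∘ f) ((fderiv ℂ g 0).comp (fderiv ℂ f z0)) z0 := hgd.comp z0 hfd
    have h2 : HasFDerivAt (g ∘ f) (ContinuousLinearMap.id ℂ E) z0 := by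
      apply (hasFDerivAt_id z0).congr_of_eventuallyEq
      have h3 : ∀ᶠ x in 𝓝 z0, ‖f x‖ < R := by
        apply hfd.continuousAt.norm.eventually_lt continuousAt_const
        rw [hf0, norm_zero]; exact hR
      filter_upwards [h3, hDo.mem_nhds hz0] with x hx hxD
      exact hgf x hxD hx
    exact h1.unique h2
  set V := fderiv ℂ f z0 v with hV
  have hgV : fderiv ℂ g 0 V = v := by
    have := congrArg (fun L => L v) hcomp
    simpa using this
  have hV0 : V ≠ 0 := by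
    intro h0
    rw [h0, map_zero] at hgV
    exact hv0 hgV.symm
  have hVp : 0 < ‖V‖ := norm_pos_iff.2 hV0
  obtain ⟨L, hL⟩ := RCLike.geometric_hahn_banach_open_point (𝕜 := ℂ) hDc hDo hζ0
  set y := z0 + ζ0 • v with hy
  set u : E := ((‖V‖⁻¹ : ℝ) : ℂ) • V with hu
  have hu1 : ‖u‖ = 1 := by
    rw [hu, norm_smul, Complex.norm_real, norm_inv, norm_norm]
    exact inv_mul_cancel₀ hVp.ne'
  have hmem : ∀ l ∈ ball (0 : ℂ) R, l • u ∈ ball (0 : E) R := by
    intro l hl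
    rw [mem_ball, dist_zero_right] at *
    rw [norm_smul, hu1, mul_one]; exact hl
  set h1 : ℂ → ℂ := fun l => L (y - g (l • u)) with hh1
  have hpos : ∀ z ∈ ball (0 : ℂ) R, 0 < (h1 z).re := by
    intro l hl
    have := hL _ (hgm (hmem l hl))
    simp only [hh1, map_sub, Complex.sub_re, sub_pos]
    exact this
  have hd1 : DifferentiableOn ℂ h1 (ball 0 R) := by
    intro l hl
    have e1 : DifferentiableAt ℂ g (l • u) := hg.differentiableAt (isOpen_ball.mem_nhds (hmem l hl))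
    have e2 : DifferentiableAt ℂ (fun l : ℂ => l • u) l := by fun_prop
    have e3 : DifferentiableAt ℂ (fun l : ℂ => g (l • u)) l := DifferentiableAt.comp l e1 e2
    apply DifferentiableAt.differentiableWithinAt
    simp only [hh1]
    fun_prop
  have key := (schwarz_halfplane hR hd1 hpos).2
  have hder : deriv h1 0 = -(L v * ((‖V‖⁻¹ : ℝ) : ℂ)) := by
    have e1 : HasDerivAt (fun l : ℂ => l • u) u 0 := by
      simpa using (hasDerivAt_id (0 : ℂ)).smul_const u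
    have e2 : HasFDerivAt g (fderiv ℂ g 0) ((0 : ℂ) • u) := by
      rw [zero_smul]
      rwa [hf0] at hgd
    have e3 : HasDerivAt (fun l : ℂ => g (l • u)) (fderiv ℂ g 0 u) 0 :=
      e2.comp_hasDerivAt (0 : ℂ) e1
    have e4 : HasDerivAt (fun l : ℂ => y - g (l • u)) (-(fderiv ℂ g 0 u)) 0 :=
      e3.const_sub y
    have e5 : HasDerivAt h1 (L (-(fderiv ℂ g 0 u))) 0 :=
      L.hasFDerivAt.comp_hasDerivAt (0 : ℂ) e4
    rw [e5.deriv, hu, map_smul, hgV, map_neg, map_smul, smul_eq_mul]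
    ring
  have h10 : h1 0 = ζ0 * L v := by
    simp only [hh1, zero_smul, hg0, hy, add_sub_cancel_left, map_smul, smul_eq_mul]
  have hLv : L v ≠ 0 := by
    intro hc
    have := hpos 0 (mem_ball_self hR)
    rw [h10, hc, mul_zero] at this
    simp at this
  have hre : (h1 0).re ≤ ‖ζ0‖ * ‖L v‖ := by
    rw [h10, ← norm_mul]
    exact Complex.re_le_norm _
  rw [hder, norm_neg, norm_mul, Complex.norm_real, norm_inv, norm_norm] at key
  have hLp : 0 < ‖L v‖ := norm_pos_iff.2 hLv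
  have h5 : R * (‖L v‖ * ‖V‖⁻¹) ≤ 2 * (‖ζ0‖ * ‖L v‖) := by linarith
  have h6 : R * ‖L v‖ ≤ 2 * ‖ζ0‖ * ‖V‖ * ‖L v‖ := by
    have : R * ‖L v‖ = (R * (‖L v‖ * ‖V‖⁻¹)) * ‖V‖ := by field_simp
    rw [this]
    calc (R * (‖L v‖ * ‖V‖⁻¹)) * ‖V‖ ≤ (2 * (‖ζ0‖ * ‖L v‖)) * ‖V‖ := by gcongr
      _ = _ := by ring
  exact le_of_mul_le_mul_right h6 hLp

/-- The analytic core. -/
theorem core {D : Set E} (hDo : IsOpen D) (hDc : Convex ℝ D) {f g : E → E} {R : ℝ} (hR : 0 < R)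
    (hf : DifferentiableOn ℂ f D) (hfm : MapsTo f D (ball 0 1))
    (hg : DifferentiableOn ℂ g (ball 0 R)) (hgm : MapsTo g (ball 0 R) D)
    (hgf : ∀ x ∈ D, ‖f x‖ < R → g (f x) = x)
    {z0 : E} (hz0 : z0 ∈ D) (hf0 : f z0 = 0)
    {Λ : E →L[ℂ] ℂ} {h : ℝ} (hh : 0 < h) (hΛ : ∀ z ∈ D, 0 < h - (Λ (z - z0)).re) {m : E}
    (hm : Λ m = -1) {t : ℝ} (ht0 : 0 < t) (ht1 : t < 1) {v : E} {r : ℝ} (hr : 0 < r)
    (hdisc : ∀ w : ℂ, ‖w‖ ≤ t → ∀ ζ : ℂ, ‖ζ‖ < r → z0 + (2 * w / (1 - w) * h) • m + ζ • v ∈ D)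
    {ζ0 : ℂ} (hζ0 : z0 + ζ0 • v ∉ D) :
    R * r ≤ 2 * ‖ζ0‖ * Real.sqrt (1 - (R * t) ^ 2) := by
  have h1 := core_deriv_lower hDo hDc hR hf hg hgm hgf hz0 hf0 hζ0
  have h2 := core_upper hDo (A := R * t) (by positivity) hf hfm hr ht0 ht1 hdisc (by
    intro w hw
    have := core_lower hR hg hgm hgf hz0 hf0 hh hΛ hm (w := w) (by rw [hw]; exact ht1) (by
      have := hdisc w hw.le 0 (by simpa using hr)
      simpa using this)
    rwa [hw] at this)
  calc R * r ≤ (2 * ‖ζ0‖ * ‖fderiv ℂ f z0 v‖) * r := by gcongr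
    _ = 2 * ‖ζ0‖ * (r * ‖fderiv ℂ f z0 v‖) := by ring
    _ ≤ _ := by gcongr

end Sq58
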