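import Mathlib
set_option autoImplicit false

open Metric Set Filter Topology

namespace Sq58


theorem mixed_taylor_aux {E F : Type*} [NormedAddCommGroup E] [NormedSpace ℝ E]
    [NormedAddCommGroup F] [NormedSpace ℝ F] {f : E → F} {f' : E → E →L[ℝ] F} {ρ K : ℝ}
    (hK : 0 ≤ K)
    (hf : ∀ z ∈ ball (0 : E) ρ, HasFDerivAt f (f' z) z)
    (hL : ∀ a ∈ ball (0 : E) ρ, ∀ b ∈ ball (0 : E) ρ, ‖f' a - f' b‖ ≤ K * ‖a - b‖)
    {x y : E} (hy : y ∈ ball (0 : E) ρ) (hyx : y + x ∈ ball (0 : E) ρ) :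
    ‖f (y + x) - f y - f' y x‖ ≤ K * ‖x‖ ^ 2 := by
  set s : Set E := ball (0 : E) ρ ∩ closedBall y ‖x‖ with hs
  have hconv : Convex ℝ s := (convex_ball _ _).inter (convex_closedBall _ _)
  have h1 : y ∈ s := ⟨hy, mem_closedBall_self (norm_nonneg _)⟩
  have h2 : y + x ∈ s := ⟨hyx, by simp [mem_closedBall, dist_eq_norm]⟩
  have := hconv.norm_image_sub_le_of_norm_hasFDerivWithin_le' (f := f) (f' := f') (φ := f' y)
    (C := K * ‖x‖) (fun z hz => (hf z hz.1).hasFDerivWithinAt)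
    (fun z hz => (hL z hz.1 y hy).trans
      (mul_le_mul_of_nonneg_left (by have := hz.2; rwa [mem_closedBall, dist_eq_norm] at this) hK)) h1 h2
  simp only [add_sub_cancel_left] at this
  calc _ ≤ K * ‖x‖ * ‖x‖ := this
    _ = _ := by ring

/-- Second order and mixed third order Taylor estimates. -/
theorem mixed_taylor {E : Type*} [NormedAddCommGroup E] [NormedSpace ℝ E] {Φ : E → ℝ} {r0 : ℝ}
    (hr0 : 0 < r0) (hΦ : ContDiffOn ℝ 3 Φ (ball 0 r0)) (h0 : Φ 0 = 0)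
    (hd0 : fderiv ℝ Φ 0 = 0) :
    ∃ C r : ℝ, 0 < C ∧ 0 < r ∧ r ≤ r0 ∧
      (∀ x ∈ ball (0 : E) r, ∀ y ∈ ball (0 : E) r,
        |Φ (y + x) - Φ y - fderiv ℝ Φ y x| ≤ C * ‖x‖ ^ 2) ∧
      (∀ x ∈ ball (0 : E) r, ∀ y ∈ ball (0 : E) r,
        |Φ (x + y) - Φ x - Φ y - fderiv ℝ Φ y x| ≤ C * ‖x‖ ^ 2 * ‖y‖) := by
  have hmem : ball (0 : E) r0 ∈ 𝓝 (0 : E) := ball_mem_nhds _ hr0
  have hA : ContDiffOn ℝ 2 (fderiv ℝ Φ) (ball 0 r0) :=
    hΦ.fderiv_of_isOpen isOpen_ball (by norm_num)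
  have hB : ContDiffOn ℝ 1 (fderiv ℝ (fderiv ℝ Φ)) (ball 0 r0) :=
    hA.fderiv_of_isOpen isOpen_ball (by norm_num)
  obtain ⟨K1, t1, ht1, hK1⟩ := ((hA.contDiffAt hmem).of_le (by norm_num : (1 : WithTop ℕ∞) ≤ 2)).exists_lipschitzOnWith
  obtain ⟨K2, t2, ht2, hK2⟩ := (hB.contDiffAt hmem).exists_lipschitzOnWith
  obtain ⟨ρ, hρ, hρs⟩ := Metric.mem_nhds_iff.1 (inter_mem hmem (inter_mem ht1 ht2))
  set K : ℝ := max K1 K2 with hK
  have hK0 : 0 ≤ K := le_max_of_le_left K1.2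
  have hρr : ρ ≤ r0 ∨ r0 < ρ := le_or_gt _ _
  have hρ1 : ∀ z ∈ ball (0 : E) ρ, z ∈ ball (0 : E) r0 := fun z hz => (hρs hz).1
  have hAd : ∀ z ∈ ball (0 : E) ρ, HasFDerivAt Φ (fderiv ℝ Φ z) z := fun z hz =>
    (((hΦ.contDiffAt (isOpen_ball.mem_nhds (hρ1 z hz))).differentiableAt (by norm_num))).hasFDerivAt
  have hBd : ∀ z ∈ ball (0 : E) ρ, HasFDerivAt (fderiv ℝ Φ) (fderiv ℝ (fderiv ℝ Φ) z) z := fun z hz =>
    (((hA.contDiffAt (isOpen_ball.mem_nhds (hρ1 z hz))).differentiableAt (by norm_num))).hasFDerivAt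
  have hL1 : ∀ a ∈ ball (0 : E) ρ, ∀ b ∈ ball (0 : E) ρ,
      ‖fderiv ℝ Φ a - fderiv ℝ Φ b‖ ≤ K * ‖a - b‖ := by
    intro a ha b hb
    have := hK1.dist_le_mul a (hρs ha).2.1 b (hρs hb).2.1
    rw [dist_eq_norm, dist_eq_norm] at this
    exact this.trans (mul_le_mul_of_nonneg_right (le_max_left _ _) (norm_nonneg _))
  have hL2 : ∀ a ∈ ball (0 : E) ρ, ∀ b ∈ ball (0 : E) ρ,
      ‖fderiv ℝ (fderiv ℝ Φ) a - fderiv ℝ (fderiv ℝ Φ) b‖ ≤ K * ‖a - b‖ := by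
    intro a ha b hb
    have := hK2.dist_le_mul a (hρs ha).2.2 b (hρs hb).2.2
    rw [dist_eq_norm, dist_eq_norm] at this
    exact this.trans (mul_le_mul_of_nonneg_right (le_max_right _ _) (norm_nonneg _))
  set r : ℝ := min (ρ / 2) r0 with hr
  have hrpos : 0 < r := lt_min (by linarith) hr0
  have hrρ : ∀ z ∈ ball (0 : E) r, z ∈ ball (0 : E) ρ := by
    intro z hz
    rw [mem_ball_zero_iff] at *
    have := min_le_left (ρ / 2) r0
    linarith
  have hadd : ∀ x ∈ ball (0 : E) r, ∀ y ∈ ball (0 : E) r, y + x ∈ ball (0 : E) ρ := by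
    intro x hx y hy
    rw [mem_ball_zero_iff] at *
    have := min_le_left (ρ / 2) r0
    have := norm_add_le y x
    linarith
  refine ⟨K + 1, r, by linarith, hrpos, min_le_right _ _, ?_, ?_⟩
  · intro x hx y hy
    have := mixed_taylor_aux hK0 hAd hL1 (hrρ y hy) (hadd x hx y hy)
    rw [Real.norm_eq_abs] at this
    refine this.trans ?_
    have : 0 ≤ ‖x‖ ^ 2 := by positivity
    nlinarith
  · intro x hx y hy
    set g : E → ℝ := fun y => Φ (x + y) - Φ x - Φ y - fderiv ℝ Φ y x with hg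
    have hgd : ∀ z ∈ ball (0 : E) r, HasFDerivWithinAt g (fderiv ℝ Φ (x + z) - fderiv ℝ Φ z -
        (ContinuousLinearMap.apply ℝ ℝ x).comp (fderiv ℝ (fderiv ℝ Φ) z)) (ball (0 : E) r) z := by
      intro z hz
      have e1 : HasFDerivAt (fun z => Φ (x + z)) (fderiv ℝ Φ (x + z)) z := by
        have h := hAd (x + z) (by rw [add_comm]; exact hadd x hx z hz)
        have h3 : HasFDerivAt (fun z : E => x + z) (ContinuousLinearMap.id ℝ E) z :=
          (hasFDerivAt_id z).const_add x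
        have := h.comp z h3
        rw [ContinuousLinearMap.comp_id] at this
        exact this
      have e2 := hAd z (hrρ z hz)
      have e3 : HasFDerivAt (fun z => fderiv ℝ Φ z x)
          ((ContinuousLinearMap.apply ℝ ℝ x).comp (fderiv ℝ (fderiv ℝ Φ) z)) z :=
        (ContinuousLinearMap.apply ℝ ℝ x).hasFDerivAt.comp z (hBd z (hrρ z hz))
      exact (((e1.sub_const (Φ x)).sub e2).sub e3).hasFDerivWithinAt
    have hbound : ∀ z ∈ ball (0 : E) r, ‖fderiv ℝ Φ (x + z) - fderiv ℝ Φ z -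
        (ContinuousLinearMap.apply ℝ ℝ x).comp (fderiv ℝ (fderiv ℝ Φ) z)‖ ≤ K * ‖x‖ ^ 2 := by
      intro z hz
      have hq := mixed_taylor_aux hK0 hBd hL2 (hrρ z hz) (hadd x hx z hz)
      refine ContinuousLinearMap.opNorm_le_bound _ (by positivity) fun u => ?_
      have hsym : fderiv ℝ (fderiv ℝ Φ) z u x = fderiv ℝ (fderiv ℝ Φ) z x u := by
        have hc : ContDiffAt ℝ 3 Φ z := hΦ.contDiffAt (isOpen_ball.mem_nhds (hρ1 z (hrρ z hz)))
        exact (hc.isSymmSndFDerivAt (by simp; norm_num)).eq u x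
      have e : (fderiv ℝ Φ (x + z) - fderiv ℝ Φ z -
          (ContinuousLinearMap.apply ℝ ℝ x).comp (fderiv ℝ (fderiv ℝ Φ) z)) u =
          (fderiv ℝ Φ (z + x) - fderiv ℝ Φ z - fderiv ℝ (fderiv ℝ Φ) z x) u := by
        simp only [ContinuousLinearMap.sub_apply, ContinuousLinearMap.comp_apply,
          ContinuousLinearMap.apply_apply, hsym, add_comm x z]
      rw [e]
      exact (ContinuousLinearMap.le_opNorm _ u).trans (mul_le_mul_of_nonneg_right hq (norm_nonneg _))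
    have h00 : (0 : E) ∈ ball (0 : E) r := mem_ball_self hrpos
    have := (convex_ball (0 : E) r).norm_image_sub_le_of_norm_hasFDerivWithin_le hgd hbound h00 hy
    have hg0 : g 0 = 0 := by simp [hg, h0, hd0]
    rw [hg0, sub_zero, sub_zero, Real.norm_eq_abs] at this
    refine this.trans ?_
    have : 0 ≤ ‖x‖ ^ 2 * ‖y‖ := by positivity
    nlinarith


end Sq58
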