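import Mathlib
import Pool.Agent.Sq58.Taylor3
set_option autoImplicit false
set_option linter.unusedSectionVars false

open Metric Set Filter Topology

namespace Sq58

/-- The iteration `ζ ↦ ζ/4`, `u ↦ u/2`. -/
theorem iter_bound {a : ℂ → ℝ} {k : ℕ} (hk : 3 ≤ k) {K1 K2 u0 : ℝ} (hK1 : 0 ≤ K1) (hK2 : 0 ≤ K2)
    (h1 : ∀ u : ℝ, 0 ≤ u → u ≤ u0 → ∀ ζ : ℂ, ‖ζ‖ ≤ u ^ 2 → |a ζ| ≤ K1 * u ^ k)
    (h2 : ∀ u : ℝ, 0 ≤ u → u ≤ u0 → ∀ ζ : ℂ, ‖ζ‖ ≤ u ^ 2 →
      |4 * a (ζ / 4) - a ζ| ≤ K2 * u ^ (k + 1)) :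
    ∀ u : ℝ, 0 ≤ u → u ≤ u0 → ∀ ζ : ℂ, ‖ζ‖ ≤ u ^ 2 → |a ζ| ≤ 4 / 3 * K2 * u ^ (k + 1) := by
  have key : ∀ n : ℕ, ∀ u : ℝ, 0 ≤ u → u ≤ u0 → ∀ ζ : ℂ, ‖ζ‖ ≤ u ^ 2 →
      |a ζ| ≤ K1 * u ^ k * (1 / 2) ^ n + 4 / 3 * K2 * u ^ (k + 1) := by
    intro n
    induction n with
    | zero =>
      intro u hu hu0 ζ hζ
      have := h1 u hu hu0 ζ hζ
      have h3 : 0 ≤ 4 / 3 * K2 * u ^ (k + 1) := by positivity
      simpa using this.trans (le_add_of_nonneg_right h3)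
    | succ n ih =>
      intro u hu hu0 ζ hζ
      have hζ4 : ‖ζ / 4‖ ≤ (u / 2) ^ 2 := by
        rw [norm_div]
        have : ‖(4 : ℂ)‖ = 4 := by simp
        rw [this]
        rw [div_pow]; linarith
      have h3 := ih (u / 2) (by positivity) (by linarith) (ζ / 4) hζ4
      have h4 := h2 u hu hu0 ζ hζ
      have h5 : |a ζ| ≤ 4 * |a (ζ / 4)| + K2 * u ^ (k + 1) := by
        have e1 : a ζ = 4 * a (ζ / 4) - (4 * a (ζ / 4) - a ζ) := by ring
        calc |a ζ| = |4 * a (ζ / 4) - (4 * a (ζ / 4) - a ζ)| := by rw [← e1]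
          _ ≤ |4 * a (ζ / 4)| + |4 * a (ζ / 4) - a ζ| := abs_sub _ _
          _ ≤ _ := by
            rw [abs_mul]
            have : |(4 : ℝ)| = 4 := by norm_num
            rw [this]
            linarith
      have hp1 : (u / 2) ^ k ≤ u ^ k / 8 := by
        rw [div_pow]
        have : (8 : ℝ) ≤ 2 ^ k := by
          calc (8 : ℝ) = 2 ^ 3 := by norm_num
            _ ≤ 2 ^ k := pow_le_pow_right₀ (by norm_num) hk
        gcongr
      have hp2 : (u / 2) ^ (k + 1) ≤ u ^ (k + 1) / 16 := by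
        rw [div_pow]
        have : (16 : ℝ) ≤ 2 ^ (k + 1) := by
          calc (16 : ℝ) = 2 ^ 4 := by norm_num
            _ ≤ 2 ^ (k + 1) := pow_le_pow_right₀ (by norm_num) (by omega)
        gcongr
      have hq : (0 : ℝ) ≤ (1 / 2) ^ n := by positivity
      have hs1 : K1 * (u / 2) ^ k * (1 / 2) ^ n ≤ K1 * (u ^ k / 8) * (1 / 2) ^ n := by gcongr
      have hs2 : 4 / 3 * K2 * (u / 2) ^ (k + 1) ≤ 4 / 3 * K2 * (u ^ (k + 1) / 16) := by gcongr
      calc |a ζ| ≤ 4 * |a (ζ / 4)| + K2 * u ^ (k + 1) := h5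
        _ ≤ 4 * (K1 * (u ^ k / 8) * (1 / 2) ^ n + 4 / 3 * K2 * (u ^ (k + 1) / 16))
            + K2 * u ^ (k + 1) := by linarith
        _ = K1 * u ^ k * (1 / 2) ^ (n + 1) + 4 / 3 * K2 * u ^ (k + 1) := by
            rw [pow_succ]; ring
  intro u hu hu0 ζ hζ
  have hlim : Tendsto (fun n : ℕ => K1 * u ^ k * (1 / 2 : ℝ) ^ n + 4 / 3 * K2 * u ^ (k + 1)) atTop
      (𝓝 (K1 * u ^ k * 0 + 4 / 3 * K2 * u ^ (k + 1))) :=
    ((tendsto_pow_atTop_nhds_zero_of_lt_one (by norm_num) (by norm_num)).const_mul _).add_const _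
  rw [mul_zero, zero_add] at hlim
  exact ge_of_tendsto' hlim (fun n => key n u hu hu0 ζ hζ)

variable {E : Type*} [NormedAddCommGroup E] [NormedSpace ℂ E]

theorem convex_mixed {Φ : E → ℝ} {r0 : ℝ} (hr0 : 0 < r0)
    (hΦ : ContDiffOn ℝ 3 Φ (ball 0 r0)) (h0 : Φ 0 = 0) (hd0 : fderiv ℝ Φ 0 = 0)
    (hc : ConvexOn ℝ (ball 0 r0) Φ) (hnn : ∀ x ∈ ball (0 : E) r0, 0 ≤ Φ x)
    {v : E} {k : ℕ} (hk : 3 ≤ k) {C0 s0 : ℝ} (hC0 : 0 < C0) (hs0 : 0 < s0)
    (hup : ∀ ζ : ℂ, ‖ζ‖ < s0 → Φ (ζ • v) ≤ C0 * ‖ζ‖ ^ k) :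
    ∃ C r u0 : ℝ, 0 < C ∧ 0 < r ∧ r ≤ r0 ∧ 0 < u0 ∧
      (∀ x ∈ ball (0 : E) r, ∀ y ∈ ball (0 : E) r,
        |Φ (y + x) - Φ y - fderiv ℝ Φ y x| ≤ C * ‖x‖ ^ 2) ∧
      (∀ x ∈ ball (0 : E) r, ∀ u : ℝ, 0 ≤ u → u ≤ u0 → ∀ ζ : ℂ, ‖ζ‖ ≤ u ^ 2 →
        |Φ (x + ζ • v) - Φ x - Φ (ζ • v)| ≤ C * (‖x‖ * u ^ (k + 1) + ‖x‖ ^ 2 * u ^ 2)) := by
  obtain ⟨C1, r1, hC1, hr1, hr10, hT1, hT2⟩ := mixed_taylor hr0 hΦ h0 hd0
  obtain ⟨j, rfl⟩ : ∃ j, k = j + 1 := ⟨k - 1, by omega⟩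
  set r2 := min (r1 / 2) 1 with hr2def
  have hr2 : 0 < r2 := by positivity
  have hr21 : r2 < r1 := (min_le_left _ _).trans_lt (by linarith)
  have hr2' : r2 ≤ 1 := min_le_right _ _
  -- the smallness of `u`
  set M := ‖v‖ + 1 with hM
  have hMpos : 0 < M := by positivity
  obtain ⟨u0, hu0, hu01, hu0s, hu0r⟩ : ∃ u0 : ℝ, 0 < u0 ∧ u0 ≤ 1 ∧ u0 ^ 2 < s0 ∧
      u0 ^ 2 * M < r1 / 2 := by
    refine ⟨min 1 (min (s0 / 2) (r1 / (4 * M))), by positivity, min_le_left _ _, ?_, ?_⟩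
    · set w := min 1 (min (s0 / 2) (r1 / (4 * M)))
      have h1 : w ≤ 1 := min_le_left _ _
      have h2 : w ≤ s0 / 2 := (min_le_right _ _).trans (min_le_left _ _)
      have h3 : 0 < w := by positivity
      nlinarith
    · set w := min 1 (min (s0 / 2) (r1 / (4 * M)))
      have h1 : w ≤ 1 := min_le_left _ _
      have h2 : w ≤ r1 / (4 * M) := (min_le_right _ _).trans (min_le_right _ _)
      have h3 : 0 < w := by positivity
      calc w ^ 2 * M ≤ w * M := by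
            have : w ^ 2 ≤ w := by nlinarith
            gcongr
        _ ≤ r1 / (4 * M) * M := by gcongr
        _ = r1 / 4 := by field_simp
        _ < r1 / 2 := by linarith
  have hζs : ∀ u : ℝ, 0 ≤ u → u ≤ u0 → ∀ ζ : ℂ, ‖ζ‖ ≤ u ^ 2 → ‖ζ‖ < s0 ∧ ‖ζ • v‖ < r1 / 2 := by
    intro u hu huu ζ hζ
    have h1 : u ^ 2 ≤ u0 ^ 2 := by gcongr
    refine ⟨by linarith, ?_⟩
    rw [norm_smul]
    calc ‖ζ‖ * ‖v‖ ≤ u0 ^ 2 * M := by
          have : ‖v‖ ≤ M := by simp [hM]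
          gcongr
          linarith
      _ < r1 / 2 := hu0r
  -- main estimate for `‖x‖ ≤ r2`
  have hmain : ∀ x : E, ‖x‖ ≤ r2 → ∀ u : ℝ, 0 ≤ u → u ≤ u0 → ∀ ζ : ℂ, ‖ζ‖ ≤ u ^ 2 →
      |fderiv ℝ Φ (ζ • v) x| ≤ 4 / 3 * (C0 + 2 * C1 * M) * u ^ (j + 1 + 1) := by
    intro x hx
    have hx2 : ‖x‖ ^ 2 ≤ 1 := by
      have : ‖x‖ ≤ 1 := hx.trans hr2'
      nlinarith [norm_nonneg x]
    have hyx : ∀ y : ℝ, |y| ≤ 1 → y • x ∈ ball (0 : E) r1 := by
      intro y hy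
      rw [mem_ball, dist_zero_right, norm_smul, Real.norm_eq_abs]
      calc |y| * ‖x‖ ≤ 1 * r2 := by gcongr
        _ < r1 := by linarith
    have hyx2 : ∀ y : ℝ, |y| ≤ 1 → ‖y • x‖ < r1 / 2 + 1 * 0 + 0 ∨ ‖y • x‖ ≤ r1 / 2 := by
      intro y hy
      right
      rw [norm_smul, Real.norm_eq_abs]
      calc |y| * ‖x‖ ≤ 1 * r2 := by gcongr
        _ ≤ r1 / 2 := by rw [one_mul]; exact min_le_left _ _
    have hsum : ∀ y : ℝ, |y| ≤ 1 → ∀ z : E, ‖z‖ < r1 / 2 → z + y • x ∈ ball (0 : E) r0 := by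
      intro y hy z hz
      rw [mem_ball, dist_zero_right]
      have h1 : ‖y • x‖ ≤ r1 / 2 := by
        rcases hyx2 y hy with h | h <;> linarith
      calc ‖z + y • x‖ ≤ ‖z‖ + ‖y • x‖ := norm_add_le _ _
        _ < r0 := by linarith
    have hyn : ∀ y : ℝ, ‖y • x‖ ^ 2 ≤ y ^ 2 := by
      intro y
      rw [norm_smul, mul_pow, Real.norm_eq_abs, sq_abs]
      nlinarith [sq_nonneg y]
    apply iter_bound (a := fun ζ => fderiv ℝ Φ (ζ • v) x) hk (K1 := C0 + C1) (by positivity)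
      (by positivity)
    · -- N1
      intro u hu huu ζ hζ
      have hu1 : u ≤ 1 := huu.trans hu01
      obtain ⟨hζs0, hζr⟩ := hζs u hu huu ζ hζ
      have hup1 : Φ (ζ • v) ≤ C0 * u ^ (2 * (j + 1)) := by
        refine (hup ζ hζs0).trans ?_
        rw [pow_mul]
        gcongr
      have huk : u ^ (j + 1) ≤ 1 := pow_le_one₀ hu hu1
      have huk0 : 0 ≤ u ^ (j + 1) := by positivity
      have hineq : ∀ y : ℝ, |y| = u ^ (j + 1) →
          -(y * fderiv ℝ Φ (ζ • v) x) ≤ (C0 + C1) * u ^ (2 * (j + 1)) := by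
        intro y hy
        have hy1 : |y| ≤ 1 := hy.le.trans huk
        have h1 := hT1 (y • x) (hyx y hy1) (ζ • v) (by
          rw [mem_ball, dist_zero_right]; linarith)
        have h2 := hnn (ζ • v + y • x) (hsum y hy1 _ hζr)
        rw [map_smul, smul_eq_mul] at h1
        have h3 := (abs_le.1 h1).2
        have h4 : C1 * ‖y • x‖ ^ 2 ≤ C1 * u ^ (2 * (j + 1)) := by
          have : ‖y • x‖ ^ 2 ≤ u ^ (2 * (j + 1)) := by
            calc ‖y • x‖ ^ 2 ≤ y ^ 2 := hyn y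
              _ = |y| ^ 2 := (sq_abs y).symm
              _ = u ^ (2 * (j + 1)) := by rw [hy, ← pow_mul, mul_comm]
          gcongr
        linarith
      rcases hu.eq_or_lt with hu00 | hupos
      · have hζ0 : ζ = 0 := by
          rw [← hu00] at hζ
          simpa using hζ
        rw [hζ0, zero_smul, hd0]
        simp [← hu00]
      · have hp : 0 < u ^ (j + 1) := by positivity
        have h1 := hineq (u ^ (j + 1)) (abs_of_pos hp)
        have h2 := hineq (-(u ^ (j + 1))) (by rw [abs_neg, abs_of_pos hp])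
        have e1 : u ^ (2 * (j + 1)) = u ^ (j + 1) * u ^ (j + 1) := by
          rw [two_mul, pow_add]
        rw [e1] at h1 h2
        rw [abs_le]
        constructor
        · have : u ^ (j + 1) * (-((C0 + C1) * u ^ (j + 1))) ≤ u ^ (j + 1) * fderiv ℝ Φ (ζ • v) x := by
            nlinarith
          exact le_of_mul_le_mul_left this hp
        · have : u ^ (j + 1) * fderiv ℝ Φ (ζ • v) x ≤ u ^ (j + 1) * ((C0 + C1) * u ^ (j + 1)) := by
            nlinarith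
          exact le_of_mul_le_mul_left this hp
    · -- N2
      intro u hu huu ζ hζ
      have hu1 : u ≤ 1 := huu.trans hu01
      obtain ⟨hζs0, hζr⟩ := hζs u hu huu ζ hζ
      have hζ4 : ‖ζ / 4‖ ≤ u ^ 2 := by
        rw [norm_div]
        have : ‖(4 : ℂ)‖ = 4 := by simp
        rw [this]
        linarith [norm_nonneg ζ]
      have hζ44 : ‖ζ / 4‖ = ‖ζ‖ / 4 := by
        rw [norm_div]
        have : ‖(4 : ℂ)‖ = 4 := by simp
        rw [this]
      obtain ⟨hζs4, hζr4⟩ := hζs u hu huu (ζ / 4) hζ4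
      have hup1 : Φ (ζ • v) ≤ C0 * u ^ (2 * (j + 1)) := by
        refine (hup ζ hζs0).trans ?_
        rw [pow_mul]
        gcongr
      have huk : u ^ j ≤ 1 := pow_le_one₀ hu hu1
      have huk0 : 0 ≤ u ^ j := by positivity
      have hineq : ∀ y : ℝ, |y| = u ^ j →
          y * (4 * fderiv ℝ Φ ((ζ / 4) • v) x - fderiv ℝ Φ (ζ • v) x)
            ≤ (C0 + 2 * C1 * M) * u ^ (2 * (j + 1)) := by
        intro y hy
        have hy1 : |y| ≤ 1 := hy.le.trans huk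
        have hb1 : ζ • v ∈ ball (0 : E) r1 := by
          rw [mem_ball, dist_zero_right]; linarith
        have hb4 : (ζ / 4) • v ∈ ball (0 : E) r1 := by
          rw [mem_ball, dist_zero_right]; linarith
        have h1 := hT2 (y • x) (hyx y hy1) (ζ • v) hb1
        have h4 := hT2 (y • x) (hyx y hy1) ((ζ / 4) • v) hb4
        rw [map_smul, smul_eq_mul] at h1 h4
        have h1' := (abs_le.1 h1).2
        have h4' := (abs_le.1 h4).1
        have hnn4 := hnn ((ζ / 4) • v) (by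
          rw [mem_ball, dist_zero_right]; linarith)
        -- convexity
        have hmem2 : y • x + ζ • v ∈ ball (0 : E) r0 := by
          have := hsum y hy1 _ hζr
          rwa [add_comm] at this
        have hcv := hc.2 (ball_subset_ball hr10 (hyx y hy1)) hmem2
          (show (0 : ℝ) ≤ 3 / 4 by norm_num) (show (0 : ℝ) ≤ 1 / 4 by norm_num) (by norm_num)
        have e1 : (3 / 4 : ℝ) • (y • x) + (1 / 4 : ℝ) • (y • x + ζ • v) = y • x + (ζ / 4) • v := by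
          have e2 : (1 / 4 : ℝ) • (ζ • v) = (ζ / 4) • v := by
            rw [← Complex.coe_smul, smul_smul]
            congr 1
            push_cast; ring
          rw [smul_add, e2, ← add_assoc, ← add_smul]
          norm_num
        rw [e1] at hcv
        simp only [smul_eq_mul] at hcv
        have hn1 : ‖ζ • v‖ ≤ u ^ 2 * M := by
          rw [norm_smul]
          have : ‖v‖ ≤ M := by simp [hM]
          gcongr
        have hn4 : ‖(ζ / 4) • v‖ ≤ u ^ 2 * M / 4 := by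
          rw [norm_smul, hζ44]
          have : ‖ζ‖ * ‖v‖ ≤ u ^ 2 * M := by rw [← norm_smul]; exact hn1
          linarith
        have hyy : ‖y • x‖ ^ 2 ≤ u ^ (2 * j) := by
          calc ‖y • x‖ ^ 2 ≤ y ^ 2 := hyn y
            _ = |y| ^ 2 := (sq_abs y).symm
            _ = u ^ (2 * j) := by rw [hy, ← pow_mul, mul_comm]
        have hE1 : C1 * ‖y • x‖ ^ 2 * ‖ζ • v‖ ≤ C1 * M * u ^ (2 * (j + 1)) := by
          calc C1 * ‖y • x‖ ^ 2 * ‖ζ • v‖ ≤ C1 * u ^ (2 * j) * (u ^ 2 * M) := by gcongr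
            _ = C1 * M * u ^ (2 * (j + 1)) := by ring
        have hE4 : C1 * ‖y • x‖ ^ 2 * ‖(ζ / 4) • v‖ ≤ C1 * M * u ^ (2 * (j + 1)) / 4 := by
          calc C1 * ‖y • x‖ ^ 2 * ‖(ζ / 4) • v‖ ≤ C1 * u ^ (2 * j) * (u ^ 2 * M / 4) := by gcongr
            _ = C1 * M * u ^ (2 * (j + 1)) / 4 := by ring
        nlinarith
      rcases hu.eq_or_lt with hu00 | hupos
      · have hζ0 : ζ = 0 := by
          rw [← hu00] at hζ
          simpa using hζ
        rw [hζ0, zero_div, zero_smul, hd0]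
        simp [← hu00]
      · have hp : 0 < u ^ j := by positivity
        have h1 := hineq (u ^ j) (abs_of_pos hp)
        have h2 := hineq (-(u ^ j)) (by rw [abs_neg, abs_of_pos hp])
        have e1 : u ^ (2 * (j + 1)) = u ^ j * u ^ (j + 1 + 1) := by
          rw [← pow_add]; congr 1; ring
        rw [e1] at h1 h2
        set Δ := 4 * fderiv ℝ Φ ((ζ / 4) • v) x - fderiv ℝ Φ (ζ • v) x with hΔ
        rw [abs_le]
        constructor
        · have : u ^ j * (-((C0 + 2 * C1 * M) * u ^ (j + 1 + 1))) ≤ u ^ j * Δ := by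
            nlinarith
          exact le_of_mul_le_mul_left this hp
        · have : u ^ j * Δ ≤ u ^ j * ((C0 + 2 * C1 * M) * u ^ (j + 1 + 1)) := by
            nlinarith
          exact le_of_mul_le_mul_left this hp
  -- homogeneity
  set K := 4 / 3 * (C0 + 2 * C1 * M) with hK
  have hKpos : 0 < K := by positivity
  have hhom : ∀ x : E, ∀ u : ℝ, 0 ≤ u → u ≤ u0 → ∀ ζ : ℂ, ‖ζ‖ ≤ u ^ 2 →
      |fderiv ℝ Φ (ζ • v) x| ≤ K / r2 * ‖x‖ * u ^ (j + 1 + 1) := by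
    intro x u hu huu ζ hζ
    by_cases hx : x = 0
    · rw [hx]; simp
    have hxp : 0 < ‖x‖ := norm_pos_iff.2 hx
    set x' := (r2 / ‖x‖) • x with hx'
    have hxn : ‖x'‖ ≤ r2 := by
      rw [hx', norm_smul, norm_div, norm_norm, Real.norm_of_nonneg hr2.le,
        div_mul_cancel₀ _ hxp.ne']
    have h1 := hmain x' hxn u hu huu ζ hζ
    rw [hx', map_smul, smul_eq_mul, abs_mul, abs_of_pos (by positivity)] at h1
    calc |fderiv ℝ Φ (ζ • v) x|
        = (r2 / ‖x‖ * |fderiv ℝ Φ (ζ • v) x|) * (‖x‖ / r2) := by field_simp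
      _ ≤ (K * u ^ (j + 1 + 1)) * (‖x‖ / r2) := by gcongr
      _ = _ := by ring
  refine ⟨K / r2 + C1 * M + C1, r1, u0, by positivity, hr1, hr10, hu0, ?_, ?_⟩
  · intro x hx y hy
    refine (hT1 x hx y hy).trans ?_
    have : C1 ≤ K / r2 + C1 * M + C1 := by
      have : 0 < K / r2 + C1 * M := by positivity
      linarith
    gcongr
  · intro x hx u hu huu ζ hζ
    obtain ⟨hζs0, hζr⟩ := hζs u hu huu ζ hζ
    have h1 := hT2 x hx (ζ • v) (by rw [mem_ball, dist_zero_right]; linarith)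
    have h2 := hhom x u hu huu ζ hζ
    have hn1 : ‖ζ • v‖ ≤ u ^ 2 * M := by
      rw [norm_smul]
      have : ‖v‖ ≤ M := by simp [hM]
      gcongr
    have h3 : C1 * ‖x‖ ^ 2 * ‖ζ • v‖ ≤ C1 * M * (‖x‖ ^ 2 * u ^ 2) := by
      calc C1 * ‖x‖ ^ 2 * ‖ζ • v‖ ≤ C1 * ‖x‖ ^ 2 * (u ^ 2 * M) := by gcongr
        _ = _ := by ring
    have h4 : |Φ (x + ζ • v) - Φ x - Φ (ζ • v)|
        ≤ |Φ (x + ζ • v) - Φ x - Φ (ζ • v) - fderiv ℝ Φ (ζ • v) x| + |fderiv ℝ Φ (ζ • v) x| := by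
      have := abs_add_le (Φ (x + ζ • v) - Φ x - Φ (ζ • v) - fderiv ℝ Φ (ζ • v) x)
        (fderiv ℝ Φ (ζ • v) x)
      simpa using this
    have hA : 0 ≤ ‖x‖ * u ^ (j + 1 + 1) := by positivity
    have hB : 0 ≤ ‖x‖ ^ 2 * u ^ 2 := by positivity
    have hKr : 0 < K / r2 := by positivity
    calc |Φ (x + ζ • v) - Φ x - Φ (ζ • v)|
        ≤ C1 * M * (‖x‖ ^ 2 * u ^ 2) + K / r2 * ‖x‖ * u ^ (j + 1 + 1) := by linarith
      _ ≤ (K / r2 + C1 * M + C1) * (‖x‖ * u ^ (j + 1 + 1) + ‖x‖ ^ 2 * u ^ 2) := by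
          have p1 : 0 ≤ C1 * M * (‖x‖ * u ^ (j + 1 + 1)) := by positivity
          have p2 : 0 ≤ C1 * (‖x‖ * u ^ (j + 1 + 1)) := by positivity
          have p3 : 0 ≤ (K / r2) * (‖x‖ ^ 2 * u ^ 2) := by positivity
          have p4 : 0 ≤ C1 * (‖x‖ ^ 2 * u ^ 2) := by positivity
          nlinarith

end Sq58
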