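import Mathlib
import Pool.Agent.Sq58.Mixed
set_option autoImplicit false
set_option linter.unusedSectionVars false

open Metric Set Filter Topology

namespace Sq58

variable {E : Type*} [NormedAddCommGroup E] [NormedSpace ℂ E]

/-- Gradient inequality for convex functions. -/
theorem grad_ineq {σ : E → ℝ} {s : Set E} (hc : ConvexOn ℝ s σ) {x y : E} (hx : x ∈ s)
    (hy : y ∈ s) (hd : DifferentiableAt ℝ σ x) : σ x + fderiv ℝ σ x (y - x) ≤ σ y := by
  have h1 : HasDerivAt (fun t : ℝ => σ (x + t • (y - x))) (fderiv ℝ σ x (y - x)) 0 := by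
    have e1 : HasDerivAt (fun t : ℝ => x + t • (y - x)) (y - x) 0 := by
      have := ((hasDerivAt_id (0 : ℝ)).smul_const (y - x)).const_add x
      simpa using this
    have e2 : HasFDerivAt σ (fderiv ℝ σ x) (x + (0 : ℝ) • (y - x)) := by
      simpa using hd.hasFDerivAt
    exact e2.comp_hasDerivAt (0 : ℝ) e1
  have h2 := h1.tendsto_slope_zero_right
  simp only [zero_add, zero_smul, add_zero] at h2
  have h3 : fderiv ℝ σ x (y - x) ≤ σ y - σ x := by
    refine le_of_tendsto h2 ?_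
    filter_upwards [Ioo_mem_nhdsGT (show (0 : ℝ) < 1 by norm_num)] with t ht
    have h4 := hc.2 hx hy (show (0 : ℝ) ≤ 1 - t by linarith [ht.2]) ht.1.le (by ring)
    have e3 : (1 - t) • x + t • y = x + t • (y - x) := by module
    rw [e3] at h4
    simp only [smul_eq_mul] at h4 ⊢
    rw [inv_mul_le_iff₀ ht.1]
    linarith
  linarith

structure LocData (D : Set E) (p N : E) (σ : E → ℝ) (r0 : ℝ) : Prop where
  pos : 0 < r0
  smooth : ContDiffOn ℝ 3 σ (ball 0 r0)
  zero : σ 0 = 0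
  conv : ConvexOn ℝ (ball 0 r0) σ
  mem : ∀ x ∈ ball (0 : E) r0, p + x ∈ D ↔ σ x < 0
  inv : ∀ x ∈ ball (0 : E) r0, ∀ h : ℝ, x + h • N ∈ ball (0 : E) r0 → σ (x + h • N) = σ x - h

variable {D : Set E} {p N : E} {σ : E → ℝ} {r0 : ℝ}

theorem LocData.diff (H : LocData D p N σ r0) {x : E} (hx : x ∈ ball (0 : E) r0) :
    DifferentiableAt ℝ σ x :=
  (H.smooth.contDiffAt (isOpen_ball.mem_nhds hx)).differentiableAt (by norm_num)

theorem LocData.fderiv_N (H : LocData D p N σ r0) {x : E} (hx : x ∈ ball (0 : E) r0) :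
    fderiv ℝ σ x N = -1 := by
  have e1 : HasDerivAt (fun t : ℝ => x + t • N) N 0 := by
    have := ((hasDerivAt_id (0 : ℝ)).smul_const N).const_add x
    simpa using this
  have e2 : HasFDerivAt σ (fderiv ℝ σ x) (x + (0 : ℝ) • N) := by
    simpa using (H.diff hx).hasFDerivAt
  have h1 : HasDerivAt (fun t : ℝ => σ (x + t • N)) (fderiv ℝ σ x N) 0 :=
    e2.comp_hasDerivAt (0 : ℝ) e1
  have h2 : HasDerivAt (fun t : ℝ => σ (x + t • N)) (-1) 0 := by
    have h3 : HasDerivAt (fun t : ℝ => σ x - t) (-1) 0 := by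
      simpa using (hasDerivAt_id (0 : ℝ)).const_sub (σ x)
    apply h3.congr_of_eventuallyEq
    have h4 : ∀ᶠ t : ℝ in 𝓝 0, x + t • N ∈ ball (0 : E) r0 := by
      have hc : ContinuousAt (fun t : ℝ => x + t • N) 0 := e1.continuousAt
      exact hc.eventually_mem (isOpen_ball.mem_nhds (by simpa using hx))
    filter_upwards [h4] with t ht
    exact H.inv x hx t ht
  exact h1.unique h2

theorem LocData.closure_mem (H : LocData D p N σ r0) {q : E} (hq : q ∈ ball (0 : E) r0)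
    (hσ : σ q = 0) : p + q ∈ closure D := by
  have ht : Tendsto (fun s : ℝ => p + (q + s • N)) (𝓝[>] 0) (𝓝 (p + q)) := by
    have : Tendsto (fun s : ℝ => p + (q + s • N)) (𝓝 0) (𝓝 (p + (q + (0 : ℝ) • N))) := by
      apply Continuous.tendsto
      fun_prop
    rw [zero_smul, add_zero] at this
    exact this.mono_left nhdsWithin_le_nhds
  apply mem_closure_of_tendsto ht
  have h4 : ∀ᶠ t : ℝ in 𝓝[>] 0, q + t • N ∈ ball (0 : E) r0 := by
    apply nhdsWithin_le_nhds
    have hc : ContinuousAt (fun t : ℝ => q + t • N) 0 := by fun_prop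
    exact hc.eventually_mem (isOpen_ball.mem_nhds (by simpa using hq))
  filter_upwards [h4, self_mem_nhdsWithin] with t ht htp
  rw [H.mem _ ht, H.inv q hq t ht, hσ]
  simpa using htp

theorem LocData.frontier_mem (hDo : IsOpen D) (H : LocData D p N σ r0) {q : E}
    (hq : q ∈ ball (0 : E) r0) (hσ : σ q = 0) : p + q ∈ frontier D := by
  rw [hDo.frontier_eq]
  refine ⟨H.closure_mem hq hσ, ?_⟩
  rw [H.mem q hq, hσ]
  exact lt_irrefl _

/-- The supporting half space. -/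
theorem LocData.support (hDo : IsOpen D) (hDc : Convex ℝ D) (H : LocData D p N σ r0) {x : E}
    (hx : x ∈ ball (0 : E) r0) (hq : x + (σ x) • N ∈ ball (0 : E) r0) {z : E}
    (hz : z ∈ D) : fderiv ℝ σ x (z - (p + x)) < - σ x := by
  set q := x + (σ x) • N with hqdef
  have hσq : σ q = 0 := by rw [hqdef, H.inv x hx _ hq, sub_self]
  have hqc := H.closure_mem hq hσq
  by_contra hcon
  push Not at hcon
  have hzint : z ∈ interior D := by rwa [hDo.interior_eq]
  -- a point close to `p + q`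
  have h4 : ∀ᶠ t : ℝ in 𝓝[>] 0, q + t • (z - (p + q)) ∈ ball (0 : E) r0 := by
    apply nhdsWithin_le_nhds
    have hc : ContinuousAt (fun t : ℝ => q + t • (z - (p + q))) 0 := by fun_prop
    exact hc.eventually_mem (isOpen_ball.mem_nhds (by simpa using hq))
  have h5 : ∀ᶠ t : ℝ in 𝓝[>] 0, t ∈ Ioo (0 : ℝ) 1 := Ioo_mem_nhdsGT (by norm_num)
  obtain ⟨t, ht1, ht2⟩ := (h4.and h5).exists
  have h6 := hDc.add_smul_sub_mem_interior' hqc hzint ⟨ht2.1, ht2.2.le⟩
  rw [hDo.interior_eq] at h6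
  set x'' := q + t • (z - (p + q)) with hx''
  have e1 : p + q + t • (z - (p + q)) = p + x'' := by rw [hx'']; abel
  rw [e1, H.mem x'' ht1] at h6
  have h7 := grad_ineq H.conv hx ht1 (H.diff hx)
  have e2 : x'' - x = (σ x) • N + t • ((z - (p + x)) - (σ x) • N) := by
    rw [hx'', hqdef]
    module
  rw [e2, map_add, map_smul, map_smul, map_sub, map_smul, H.fderiv_N hx] at h7
  simp only [smul_eq_mul] at h7
  have h8 : 0 ≤ t * (fderiv ℝ σ x (z - (p + x)) - σ x * (-1)) := by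
    apply mul_nonneg ht2.1.le
    linarith
  linarith

/-- The real functional `fderiv ℝ σ x` is the real part of a complex linear functional. -/
theorem exists_complex_functional (A : E →L[ℝ] ℝ) :
    ∃ Λ : E →L[ℂ] ℂ, ∀ z, (Λ z).re = A z := by
  refine ⟨StrongDual.extendRCLike (𝕜 := ℂ) A, fun z => ?_⟩
  exact StrongDual.re_extendRCLike_apply (𝕜 := ℂ) A z

theorem LocData.functional (hDo : IsOpen D) (hDc : Convex ℝ D) (H : LocData D p N σ r0) {x : E}
    (hx : x ∈ ball (0 : E) r0) (hq : x + (σ x) • N ∈ ball (0 : E) r0) :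
    ∃ (Λ : E →L[ℂ] ℂ) (m : E), Λ m = -1 ∧ ‖m‖ ≤ ‖N‖ ∧
      (∀ z ∈ D, 0 < -σ x - (Λ (z - (p + x))).re) ∧ ∀ ξ : ℂ, fderiv ℝ σ x (ξ • m) = -ξ.re := by
  obtain ⟨Λ, hΛ⟩ := exists_complex_functional (fderiv ℝ σ x)
  have hN : (Λ N).re = -1 := by rw [hΛ, H.fderiv_N hx]
  have hN0 : Λ N ≠ 0 := by
    intro hc
    rw [hc] at hN
    norm_num at hN
  have hN1 : 1 ≤ ‖Λ N‖ := by
    have := Complex.abs_re_le_norm (Λ N)
    rw [hN] at this
    simpa using this
  refine ⟨Λ, (-(Λ N)⁻¹) • N, ?_, ?_, ?_, ?_⟩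
  · rw [map_smul, smul_eq_mul, neg_mul, inv_mul_cancel₀ hN0]
  · rw [norm_smul, norm_neg, norm_inv]
    have : ‖Λ N‖⁻¹ ≤ 1 := inv_le_one_of_one_le₀ hN1
    calc ‖Λ N‖⁻¹ * ‖N‖ ≤ 1 * ‖N‖ := by gcongr
      _ = ‖N‖ := one_mul _
  · intro z hz
    rw [hΛ]
    linarith [H.support hDo hDc hx hq hz]
  · intro ξ
    rw [← hΛ, map_smul, map_smul, smul_eq_mul, smul_eq_mul, neg_mul, inv_mul_cancel₀ hN0]
    simp

end Sq58
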