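import Mathlib
import Pool.Agent.Sq58.Loc
set_option autoImplicit false
set_option linter.unusedSectionVars false

open Metric Set Filter Topology

namespace Sq58

variable {E : Type*} [NormedAddCommGroup E] [NormedSpace ℂ E]

variable {D : Set E} {p N v : E} {σ : E → ℝ} {r0 : ℝ}

theorem real_functional_zero {A : E →L[ℝ] ℝ} (h1 : A v = 0) (h2 : A (Complex.I • v) = 0) (ζ : ℂ) :
    A (ζ • v) = 0 := by
  have e : ζ • v = ζ.re • v + ζ.im • (Complex.I • v) := by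
    rw [← Complex.coe_smul, ← Complex.coe_smul, smul_smul, ← add_smul]
    congr 1
    exact (Complex.re_add_im ζ).symm
  rw [e, map_add, map_smul, map_smul, h1, h2]
  simp

theorem LocData.mixed (H : LocData D p N σ r0) (hv1 : fderiv ℝ σ 0 v = 0)
    (hv2 : fderiv ℝ σ 0 (Complex.I • v) = 0) {k : ℕ} (hk : 3 ≤ k) {C0 s0 : ℝ} (hC0 : 0 < C0)
    (hs0 : 0 < s0) (hup : ∀ ζ : ℂ, ‖ζ‖ < s0 → |σ (ζ • v)| ≤ C0 * ‖ζ‖ ^ k) :
    ∃ C r u0 : ℝ, 0 < C ∧ 0 < r ∧ r ≤ r0 ∧ 0 < u0 ∧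
      (∀ x ∈ ball (0 : E) r, ∀ y ∈ ball (0 : E) r,
        |σ (y + x) - σ y - fderiv ℝ σ y x| ≤ C * ‖x‖ ^ 2) ∧
      (∀ x ∈ ball (0 : E) r, ∀ u : ℝ, 0 ≤ u → u ≤ u0 → ∀ ζ : ℂ, ‖ζ‖ ≤ u ^ 2 →
        |σ (x + ζ • v) - σ x - σ (ζ • v)| ≤ C * (‖x‖ * u ^ (k + 1) + ‖x‖ ^ 2 * u ^ 2)) ∧
      (∀ ζ : ℂ, ζ • v ∈ ball (0 : E) r0 → 0 ≤ σ (ζ • v)) := by
  have hv := real_functional_zero hv1 hv2
  set lam := fderiv ℝ σ 0 with hlam
  have h0mem : (0 : E) ∈ ball (0 : E) r0 := mem_ball_self H.pos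
  set Φ : E → ℝ := fun x => σ x - lam x with hΦ
  have hΦs : ContDiffOn ℝ 3 Φ (ball 0 r0) := H.smooth.sub lam.contDiff.contDiffOn
  have hΦ0 : Φ 0 = 0 := by simp [hΦ, H.zero]
  have hΦd : ∀ y ∈ ball (0 : E) r0, fderiv ℝ Φ y = fderiv ℝ σ y - lam := by
    intro y hy
    exact ((H.diff hy).hasFDerivAt.sub lam.hasFDerivAt).fderiv
  have hΦd0 : fderiv ℝ Φ 0 = 0 := by
    rw [hΦd 0 h0mem, ← hlam, sub_self]
  have hΦc : ConvexOn ℝ (ball 0 r0) Φ := by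
    refine ⟨H.conv.1, fun x hx y hy a b ha hb hab => ?_⟩
    have := H.conv.2 hx hy ha hb hab
    simp only [hΦ, map_add, map_smul, smul_eq_mul] at this ⊢
    linarith
  have hΦn : ∀ x ∈ ball (0 : E) r0, 0 ≤ Φ x := by
    intro x hx
    have := grad_ineq H.conv h0mem hx (H.diff h0mem)
    rw [H.zero, sub_zero, ← hlam] at this
    simp only [hΦ]
    linarith
  have hΦζ : ∀ ζ : ℂ, Φ (ζ • v) = σ (ζ • v) := by
    intro ζ
    simp only [hΦ, hv ζ, sub_zero]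
  obtain ⟨C, r, u0, hC, hr, hrr0, hu0, hT, hM⟩ := convex_mixed H.pos hΦs hΦ0 hΦd0 hΦc hΦn hk hC0
    hs0 (v := v) (by
      intro ζ hζ
      rw [hΦζ]
      exact (le_abs_self _).trans (hup ζ hζ))
  refine ⟨C, r, u0, hC, hr, hrr0, hu0, ?_, ?_, ?_⟩
  · intro x hx y hy
    have h1 := hT x hx y hy
    rw [hΦd y (ball_subset_ball hrr0 hy)] at h1
    simp only [hΦ, map_add] at h1
    have e : σ (y + x) - (lam y + lam x) - (σ y - lam y) - (fderiv ℝ σ y - lam) x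
        = σ (y + x) - σ y - fderiv ℝ σ y x := by
      have : (fderiv ℝ σ y - lam) x = fderiv ℝ σ y x - lam x := rfl
      rw [this]; ring
    rwa [e] at h1
  · intro x hx u hu huu ζ hζ
    have h1 := hM x hx u hu huu ζ hζ
    simp only [hΦ, map_add, hv ζ] at h1
    have e : σ (x + ζ • v) - (lam x + 0) - (σ x - lam x) - (σ (ζ • v) - 0)
        = σ (x + ζ • v) - σ x - σ (ζ • v) := by ring
    rwa [e] at h1
  · intro ζ hζ
    rw [← hΦζ]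
    exact hΦn _ hζ

theorem ev_small (K : ℝ) {ε : ℝ} (hε : 0 < ε) : ∀ᶠ ω : ℝ in 𝓝[>] 0, K * ω < ε := by
  apply nhdsWithin_le_nhds
  have : Tendsto (fun ω : ℝ => K * ω) (𝓝 0) (𝓝 (K * 0)) := by
    apply Continuous.tendsto; fun_prop
  rw [mul_zero] at this
  exact this.eventually_lt_const hε

theorem ev_unit : ∀ᶠ ω : ℝ in 𝓝[>] 0, ω ∈ Ioo (0 : ℝ) 1 := Ioo_mem_nhdsGT (by norm_num)

/-- Estimates for the Cayley transform. -/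
theorem cayley_re {w : ℂ} {t : ℝ} (ht1 : t < 1) (hw : ‖w‖ ≤ t) :
    (1 - t ^ 2) / 4 ≤ 1 + (2 * w / (1 - w)).re ∧ ‖2 * w / (1 - w)‖ ≤ 2 / (1 - t) := by
  have hw1 : (1 : ℂ) - w ≠ 0 := by
    intro hc
    have : w = 1 := by linear_combination -hc
    rw [this, norm_one] at hw
    linarith
  have hp : 0 < ‖(1 : ℂ) - w‖ := norm_pos_iff.2 hw1
  have ht0 : 0 ≤ t := (norm_nonneg _).trans hw
  constructor
  · set ξ := 2 * w / (1 - w) with hξ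
    have e1 : (2 + ξ) * w = ξ := by rw [hξ]; field_simp; ring
    have e2 : (2 + ξ) * (1 - w) = 2 := by rw [hξ]; field_simp; ring
    have h1 : ‖2 + ξ‖ * ‖w‖ = ‖ξ‖ := by rw [← norm_mul, e1]
    have h2 : ‖2 + ξ‖ * ‖1 - w‖ = 2 := by
      rw [← norm_mul, e2]; simp
    have h3 : ‖(1 : ℂ) - w‖ ≤ 2 := by
      have := norm_sub_le (1 : ℂ) w
      rw [norm_one] at this
      linarith
    have h4 : 1 ≤ ‖2 + ξ‖ := by
      by_contra hcon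
      push Not at hcon
      nlinarith [norm_nonneg (2 + ξ)]
    have h5 : ‖2 + ξ‖ ^ 2 - ‖ξ‖ ^ 2 = 4 * (1 + ξ.re) := by
      rw [← Complex.normSq_eq_norm_sq, ← Complex.normSq_eq_norm_sq, Complex.normSq_apply,
        Complex.normSq_apply]
      simp only [Complex.add_re, Complex.add_im, Complex.re_ofNat, Complex.im_ofNat]
      ring
    have h6 : (1 - t ^ 2) ≤ ‖2 + ξ‖ ^ 2 - ‖ξ‖ ^ 2 := by
      rw [← h1, mul_pow]
      have h7 : ‖w‖ ^ 2 ≤ t ^ 2 := by gcongr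
      have h8 : t ^ 2 < 1 := by nlinarith
      have h9 : (1 : ℝ) ≤ ‖2 + ξ‖ ^ 2 := by nlinarith
      nlinarith
    linarith
  · rw [norm_div, norm_mul]
    have h3 : 1 - t ≤ ‖(1 : ℂ) - w‖ := by
      have := norm_sub_norm_le (1 : ℂ) w
      rw [norm_one] at this
      linarith
    have h4 : ‖(2 : ℂ)‖ = 2 := by simp
    rw [h4]
    have h5 : 0 < 1 - t := by linarith
    have h6 : ‖w‖ ≤ 1 := by linarith
    calc 2 * ‖w‖ / ‖1 - w‖ ≤ 2 * 1 / (1 - t) := by gcongr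
      _ = _ := by ring

/-- The disc and the complex discs in direction `v` around it are contained in `D`. -/
theorem geomE (H : LocData D p N σ r0) {k : ℕ} (hk : 3 ≤ k) {C0 s0 : ℝ} (hC0 : 0 < C0)
    (hs0 : 0 < s0) (hup : ∀ ζ : ℂ, ‖ζ‖ < s0 → |σ (ζ • v)| ≤ C0 * ‖ζ‖ ^ k)
    {C r u0 : ℝ} (hC : 0 < C) (hr : 0 < r) (hu0 : 0 < u0)
    (hT : ∀ x ∈ ball (0 : E) r, ∀ y ∈ ball (0 : E) r,
        |σ (y + x) - σ y - fderiv ℝ σ y x| ≤ C * ‖x‖ ^ 2)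
    (hM : ∀ x ∈ ball (0 : E) r, ∀ u : ℝ, 0 ≤ u → u ≤ u0 → ∀ ζ : ℂ, ‖ζ‖ ≤ u ^ 2 →
        |σ (x + ζ • v) - σ x - σ (ζ • v)| ≤ C * (‖x‖ * u ^ (k + 1) + ‖x‖ ^ 2 * u ^ 2))
    {t e b Cp : ℝ} (ht1 : t < 1) (he : 0 < e) (hte : t ^ 2 = 1 - e ^ 2) (hb : 0 < b)
    (hb2 : C0 * b ^ k ≤ e ^ 2 / 16) (hCp : 0 ≤ Cp) :
    ∀ᶠ ω : ℝ in 𝓝[>] 0, ∀ x : E, ‖x‖ ≤ Cp * ω ^ k → σ x = -ω ^ (2 * k) →
      ∀ m : E, ‖m‖ ≤ ‖N‖ → (∀ ξ : ℂ, fderiv ℝ σ x (ξ • m) = -ξ.re) →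
      ∀ w : ℂ, ‖w‖ ≤ t → ∀ ζ : ℂ, ‖ζ‖ < b * ω ^ 2 →
        (p + x) + (2 * w / (1 - w) * ((ω ^ (2 * k) : ℝ) : ℂ)) • m + ζ • v ∈ D := by
  set X := 2 / (1 - t) with hX
  have hXpos : 0 < X := by
    have : 0 < 1 - t := by linarith
    positivity
  set Y := Cp + X * ‖N‖ with hY
  have hYpos : 0 ≤ Y := by positivity
  set β := Real.sqrt b with hβ
  have hβp : 0 < β := Real.sqrt_pos.2 hb
  have hβ2 : β ^ 2 = b := Real.sq_sqrt hb.le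
  have he2 : 0 < e ^ 2 := by positivity
  filter_upwards [ev_unit, ev_small Y hr, ev_small β hu0, ev_small b hs0,
    ev_small (Y + b * ‖v‖) H.pos,
    ev_small (C * (X * ‖N‖) ^ 2 + C * (Y * β ^ (k + 1) + Y ^ 2 * β ^ 2))
      (show 0 < e ^ 2 / 8 by positivity)] with ω hω c2 c3 c4 c5 c6
  intro x hx hσx m hm hA w hw ζ hζ
  obtain ⟨hω0, hω1⟩ := hω
  set h := ω ^ (2 * k) with hh
  have hhpos : 0 < h := by positivity
  have hkk : ω ^ k ≤ ω := by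
    calc ω ^ k ≤ ω ^ 1 := pow_le_pow_of_le_one hω0.le hω1.le (by omega)
      _ = ω := pow_one ω
  have hhω : h ≤ ω := by
    calc ω ^ (2 * k) ≤ ω ^ 1 := pow_le_pow_of_le_one hω0.le hω1.le (by omega)
      _ = ω := pow_one ω
  have hhk : h ≤ ω ^ k := pow_le_pow_of_le_one hω0.le hω1.le (by omega)
  have hhk2 : ω ^ k * ω ^ k = h := by rw [hh, ← pow_add, two_mul]
  obtain ⟨hre, hnorm⟩ := cayley_re ht1 hw
  set ξ := 2 * w / (1 - w) with hξ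
  set d : E := (ξ * (h : ℂ)) • m with hd
  have hdn : ‖d‖ ≤ X * ‖N‖ * h := by
    rw [hd, norm_smul, norm_mul, Complex.norm_real, Real.norm_of_nonneg hhpos.le]
    calc ‖ξ‖ * h * ‖m‖ ≤ X * h * ‖N‖ := by gcongr
      _ = _ := by ring
  have hωk0 : 0 < ω ^ k := by positivity
  have hxn : ‖x‖ ≤ Y * ω ^ k := by
    refine hx.trans ?_
    have : Cp ≤ Y := by
      have : 0 ≤ X * ‖N‖ := by positivity
      linarith
    gcongr
  have hyn : ‖x + d‖ ≤ Y * ω ^ k := by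
    calc ‖x + d‖ ≤ ‖x‖ + ‖d‖ := norm_add_le _ _
      _ ≤ Cp * ω ^ k + X * ‖N‖ * ω ^ k := by
          have : X * ‖N‖ * h ≤ X * ‖N‖ * ω ^ k := by gcongr
          linarith
      _ = Y * ω ^ k := by rw [hY]; ring
  have hdn2 : ‖d‖ ≤ Y * ω ^ k := by
    have h1 : X * ‖N‖ ≤ Y := by linarith
    calc ‖d‖ ≤ X * ‖N‖ * h := hdn
      _ ≤ Y * ω ^ k := by gcongr
  have hYk : Y * ω ^ k ≤ Y * ω := by gcongr
  have hxr : x ∈ ball (0 : E) r := by rw [mem_ball, dist_zero_right]; linarith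
  have hyr : x + d ∈ ball (0 : E) r := by rw [mem_ball, dist_zero_right]; linarith
  have hdr : d ∈ ball (0 : E) r := by rw [mem_ball, dist_zero_right]; linarith
  have h1 := (abs_le.1 (hT d hdr x hxr)).2
  rw [hd, hA, ← hd] at h1
  have e1 : (ξ * (h : ℂ)).re = ξ.re * h := by rw [mul_comm, Complex.re_ofReal_mul, mul_comm]
  rw [e1] at h1
  have hωω : ω ^ 2 ≤ ω := by nlinarith
  have hζ2 : ‖ζ‖ ≤ (β * ω) ^ 2 := by rw [mul_pow, hβ2]; exact hζ.le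
  have h2 := (abs_le.1 (hM (x + d) hyr (β * ω) (by positivity) c3.le ζ hζ2)).2
  have hζs : ‖ζ‖ < s0 := by
    have : b * ω ^ 2 ≤ b * ω := by gcongr
    linarith
  have h3 : σ (ζ • v) ≤ C0 * (b ^ k * h) := by
    refine (le_abs_self _).trans ((hup ζ hζs).trans ?_)
    have : ‖ζ‖ ^ k ≤ (b * ω ^ 2) ^ k := by gcongr
    have e2 : (b * ω ^ 2) ^ k = b ^ k * h := by rw [mul_pow, ← pow_mul]
    rw [e2] at this
    gcongr
  -- final estimate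
  have hmem : x + d + ζ • v ∈ ball (0 : E) r0 := by
    rw [mem_ball, dist_zero_right]
    calc ‖x + d + ζ • v‖ ≤ ‖x + d‖ + ‖ζ • v‖ := norm_add_le _ _
      _ ≤ Y * ω + b * ω * ‖v‖ := by
          rw [norm_smul]
          have h5 : ‖ζ‖ ≤ b * ω := by
            have : b * ω ^ 2 ≤ b * ω := by gcongr
            linarith
          have h6 : ‖ζ‖ * ‖v‖ ≤ b * ω * ‖v‖ := by gcongr
          linarith
      _ = (Y + b * ‖v‖) * ω := by ring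
      _ < r0 := c5
  have hgoal : σ (x + d + ζ • v) < 0 := by
    have t1 : C * ‖d‖ ^ 2 ≤ C * (X * ‖N‖) ^ 2 * ω * h := by
      calc C * ‖d‖ ^ 2 ≤ C * (X * ‖N‖ * h) ^ 2 := by gcongr
        _ = C * (X * ‖N‖) ^ 2 * h * h := by ring
        _ ≤ C * (X * ‖N‖) ^ 2 * ω * h := by gcongr
    have t2 : C * (‖x + d‖ * (β * ω) ^ (k + 1) + ‖x + d‖ ^ 2 * (β * ω) ^ 2)
        ≤ C * (Y * β ^ (k + 1) + Y ^ 2 * β ^ 2) * ω * h := by
      have s1 : ‖x + d‖ * (β * ω) ^ (k + 1) ≤ Y * β ^ (k + 1) * ω * h := by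
        calc ‖x + d‖ * (β * ω) ^ (k + 1) ≤ Y * ω ^ k * (β * ω) ^ (k + 1) := by gcongr
          _ = Y * β ^ (k + 1) * ω * (ω ^ k * ω ^ k) := by ring
          _ = _ := by rw [hhk2]
      have s2 : ‖x + d‖ ^ 2 * (β * ω) ^ 2 ≤ Y ^ 2 * β ^ 2 * ω * h := by
        calc ‖x + d‖ ^ 2 * (β * ω) ^ 2 ≤ (Y * ω ^ k) ^ 2 * (β * ω) ^ 2 := by gcongr
          _ = Y ^ 2 * β ^ 2 * ω ^ 2 * (ω ^ k * ω ^ k) := by ring
          _ = Y ^ 2 * β ^ 2 * ω ^ 2 * h := by rw [hhk2]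
          _ ≤ Y ^ 2 * β ^ 2 * ω * h := by gcongr
      calc C * (‖x + d‖ * (β * ω) ^ (k + 1) + ‖x + d‖ ^ 2 * (β * ω) ^ 2)
          ≤ C * (Y * β ^ (k + 1) * ω * h + Y ^ 2 * β ^ 2 * ω * h) := by gcongr
        _ = _ := by ring
    have t3 : C0 * (b ^ k * h) ≤ e ^ 2 / 16 * h := by
      calc C0 * (b ^ k * h) = (C0 * b ^ k) * h := by ring
        _ ≤ _ := by gcongr
    have t4 : (C * (X * ‖N‖) ^ 2 + C * (Y * β ^ (k + 1) + Y ^ 2 * β ^ 2)) * ω * h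
        ≤ e ^ 2 / 8 * h := by gcongr
    have t5 : e ^ 2 / 4 * h ≤ (1 + ξ.re) * h := by
      have : e ^ 2 / 4 ≤ 1 + ξ.re := by
        rw [hte] at hre; linarith
      gcongr
    have t6 : 0 < e ^ 2 * h := by positivity
    rw [hσx] at h1
    nlinarith
  have efin : (p + x) + (ξ * (h : ℂ)) • m + ζ • v = p + (x + d + ζ • v) := by
    rw [hd]; abel
  rw [efin, H.mem _ hmem]
  exact hgoal

/-- Points outside `D` at distance comparable with the size of the complex discs. -/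
theorem geomF (H : LocData D p N σ r0) {k : ℕ} (hk : 3 ≤ k)
    {C r u0 : ℝ} (hC : 0 < C) (hr : 0 < r) (hu0 : 0 < u0)
    (hM : ∀ x ∈ ball (0 : E) r, ∀ u : ℝ, 0 ≤ u → u ≤ u0 → ∀ ζ : ℂ, ‖ζ‖ ≤ u ^ 2 →
        |σ (x + ζ • v) - σ x - σ (ζ • v)| ≤ C * (‖x‖ * u ^ (k + 1) + ‖x‖ ^ 2 * u ^ 2))
    (hnn : ∀ ζ : ℂ, ζ • v ∈ ball (0 : E) r0 → 0 ≤ σ (ζ • v))
    {η : ℂ} (hη : ‖η‖ = 1) {c0 s2 : ℝ} (hs2 : 0 < s2)
    (hlow : ∀ s : ℝ, 0 < s → s < s2 → c0 * s ^ k ≤ |σ (((s : ℂ) * η) • v)|)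
    {B Cp : ℝ} (hB : 0 < B) (hB2 : 2 ≤ c0 * B ^ k) (hCp : 0 ≤ Cp) :
    ∀ᶠ ω : ℝ in 𝓝[>] 0, ∀ x : E, ‖x‖ ≤ Cp * ω ^ k → σ x = -ω ^ (2 * k) →
      (p + x) + (((B * ω ^ 2 : ℝ) : ℂ) * η) • v ∉ D := by
  set β := Real.sqrt B with hβ
  have hβp : 0 < β := Real.sqrt_pos.2 hB
  have hβ2 : β ^ 2 = B := Real.sq_sqrt hB.le
  filter_upwards [ev_unit, ev_small Cp hr, ev_small β hu0, ev_small B hs2,
    ev_small (Cp + B * ‖v‖) H.pos,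
    ev_small (C * (Cp * β ^ (k + 1) + Cp ^ 2 * β ^ 2)) (show (0 : ℝ) < 1 by norm_num)] with
    ω hω c2 c3 c4 c5 c6
  intro x hx hσx
  obtain ⟨hω0, hω1⟩ := hω
  set h := ω ^ (2 * k) with hh
  have hhpos : 0 < h := by positivity
  have hkk : ω ^ k ≤ ω := by
    calc ω ^ k ≤ ω ^ 1 := pow_le_pow_of_le_one hω0.le hω1.le (by omega)
      _ = ω := pow_one ω
  have hhk2 : ω ^ k * ω ^ k = h := by rw [hh, ← pow_add, two_mul]
  have hωω : ω ^ 2 ≤ ω := by nlinarith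
  set ζ : ℂ := ((B * ω ^ 2 : ℝ) : ℂ) * η with hζdef
  have hζn : ‖ζ‖ = B * ω ^ 2 := by
    rw [hζdef, norm_mul, hη, mul_one, Complex.norm_real, Real.norm_of_nonneg (by positivity)]
  have hxω : ‖x‖ ≤ Cp * ω := hx.trans (by gcongr)
  have hxr : x ∈ ball (0 : E) r := by rw [mem_ball, dist_zero_right]; linarith
  have hζ2 : ‖ζ‖ ≤ (β * ω) ^ 2 := by rw [mul_pow, hβ2, hζn]
  have h2 := (abs_le.1 (hM x hxr (β * ω) (by positivity) c3.le ζ hζ2)).1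
  have hBω : B * ω ^ 2 ≤ B * ω := by gcongr
  have hζv : ‖ζ • v‖ ≤ B * ‖v‖ * ω := by
    rw [norm_smul, hζn]
    calc B * ω ^ 2 * ‖v‖ ≤ B * ω * ‖v‖ := by gcongr
      _ = _ := by ring
  have hmem : x + ζ • v ∈ ball (0 : E) r0 := by
    rw [mem_ball, dist_zero_right]
    calc ‖x + ζ • v‖ ≤ ‖x‖ + ‖ζ • v‖ := norm_add_le _ _
      _ ≤ Cp * ω + B * ‖v‖ * ω := by linarith
      _ = (Cp + B * ‖v‖) * ω := by ring
      _ < r0 := c5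
  have hζmem : ζ • v ∈ ball (0 : E) r0 := by
    rw [mem_ball, dist_zero_right]
    have : 0 ≤ Cp * ω := by positivity
    calc ‖ζ • v‖ ≤ B * ‖v‖ * ω := hζv
      _ ≤ (Cp + B * ‖v‖) * ω := by linarith
      _ < r0 := c5
  have h3 := hlow (B * ω ^ 2) (by positivity) (by linarith)
  rw [← hζdef, abs_of_nonneg (hnn ζ hζmem)] at h3
  have h4 : 2 * h ≤ c0 * (B * ω ^ 2) ^ k := by
    have e2 : (B * ω ^ 2) ^ k = B ^ k * h := by rw [mul_pow, ← pow_mul]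
    rw [e2]
    calc 2 * h ≤ (c0 * B ^ k) * h := by gcongr
      _ = _ := by ring
  have t2 : C * (‖x‖ * (β * ω) ^ (k + 1) + ‖x‖ ^ 2 * (β * ω) ^ 2)
      ≤ C * (Cp * β ^ (k + 1) + Cp ^ 2 * β ^ 2) * ω * h := by
    have s1 : ‖x‖ * (β * ω) ^ (k + 1) ≤ Cp * β ^ (k + 1) * ω * h := by
      calc ‖x‖ * (β * ω) ^ (k + 1) ≤ Cp * ω ^ k * (β * ω) ^ (k + 1) := by gcongr
        _ = Cp * β ^ (k + 1) * ω * (ω ^ k * ω ^ k) := by ring
        _ = _ := by rw [hhk2]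
    have s2 : ‖x‖ ^ 2 * (β * ω) ^ 2 ≤ Cp ^ 2 * β ^ 2 * ω * h := by
      calc ‖x‖ ^ 2 * (β * ω) ^ 2 ≤ (Cp * ω ^ k) ^ 2 * (β * ω) ^ 2 := by gcongr
        _ = Cp ^ 2 * β ^ 2 * ω ^ 2 * (ω ^ k * ω ^ k) := by ring
        _ = Cp ^ 2 * β ^ 2 * ω ^ 2 * h := by rw [hhk2]
        _ ≤ Cp ^ 2 * β ^ 2 * ω * h := by gcongr
    calc C * (‖x‖ * (β * ω) ^ (k + 1) + ‖x‖ ^ 2 * (β * ω) ^ 2)
        ≤ C * (Cp * β ^ (k + 1) * ω * h + Cp ^ 2 * β ^ 2 * ω * h) := by gcongr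
      _ = _ := by ring
  have t4 : C * (Cp * β ^ (k + 1) + Cp ^ 2 * β ^ 2) * ω * h ≤ 1 * h := by gcongr
  have efin : (p + x) + ζ • v = p + (x + ζ • v) := by abel
  rw [efin, H.mem _ hmem, not_lt]
  rw [hσx] at h2
  linarith

end Sq58
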