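import Mathlib
set_option autoImplicit false

open Metric Set Filter Topology

namespace Sq58


/-- mean value estimate -/
theorem ecd_mv {E : Type*} [NormedAddCommGroup E] [NormedSpace ℝ E] {ρ : E → ℝ} {p N : E} {δ : ℝ}
    (hd : ∀ z ∈ ball p δ, DifferentiableAt ℝ ρ z ∧ -2 ≤ fderiv ℝ ρ z N ∧
      fderiv ℝ ρ z N ≤ -1 / 2)
    (z : E) (t : ℝ) (ht : 0 ≤ t) (hz : p + z ∈ ball p δ) (hzt : p + (z + t • N) ∈ ball p δ) :
    t / 2 ≤ ρ (p + z) - ρ (p + (z + t • N)) ∧ ρ (p + z) - ρ (p + (z + t • N)) ≤ 2 * t := by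
  rcases ht.eq_or_lt with h0 | hpos
  · simp [← h0]
  have hseg : ∀ s ∈ Icc (0 : ℝ) t, p + (z + s • N) ∈ ball p δ := by
    intro s hs
    have hc := convex_ball p δ
    have h1 : p + (z + s • N) = (1 - s / t) • (p + z) + (s / t) • (p + (z + t • N)) := by
      have h2 : (s / t) • (t • N) = s • N := by
        rw [smul_smul, div_mul_cancel₀ _ hpos.ne']
      rw [smul_add (s / t) p, smul_add (s / t) z, h2]
      module
    rw [h1]
    have h3 : s / t ≤ 1 := by
      rw [div_le_one hpos]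
      exact hs.2
    exact hc hz hzt (by linarith) (div_nonneg hs.1 hpos.le) (by ring)
  have hder : ∀ s ∈ Icc (0 : ℝ) t, HasDerivAt (fun s : ℝ => ρ (p + (z + s • N)))
      (fderiv ℝ ρ (p + (z + s • N)) N) s := by
    intro s hs
    have h1 := (hd _ (hseg s hs)).1.hasFDerivAt
    have h2 : HasDerivAt (fun s : ℝ => p + (z + s • N)) N s := by
      have := (((hasDerivAt_id s).smul_const N).const_add z).const_add p
      simpa using this
    exact h1.comp_hasDerivAt s h2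
  obtain ⟨c, hc, hceq⟩ := exists_hasDerivAt_eq_slope (fun s : ℝ => ρ (p + (z + s • N)))
    (fun s => fderiv ℝ ρ (p + (z + s • N)) N) hpos
    (fun s hs => (hder s hs).continuousAt.continuousWithinAt)
    (fun s hs => hder s ⟨hs.1.le, hs.2.le⟩)
  have h3 := hd _ (hseg c ⟨hc.1.le, hc.2.le⟩)
  simp only [zero_smul, add_zero, sub_zero] at hceq
  rw [eq_div_iff hpos.ne'] at hceq
  constructor <;> nlinarith

theorem ecd_key {E : Type*} [NormedAddCommGroup E] [NormedSpace ℝ E] {ρ : E → ℝ} {p N : E} {δ : ℝ}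
    (hd : ∀ z ∈ ball p δ, DifferentiableAt ℝ ρ z ∧ -2 ≤ fderiv ℝ ρ z N ∧
      fderiv ℝ ρ z N ≤ -1 / 2)
    (z : E) (t : ℝ) (hz : p + z ∈ ball p δ) (hzt : p + (z + t • N) ∈ ball p δ)
    (h0 : ρ (p + (z + t • N)) = 0) :
    (ρ (p + z) < 0 ↔ t < 0) ∧ |t| ≤ 2 * |ρ (p + z)| ∧ |ρ (p + z)| ≤ 2 * |t| := by
  rcases le_total 0 t with ht | ht
  · obtain ⟨h1, h2⟩ := ecd_mv hd z t ht hz hzt
    rw [h0, sub_zero] at h1 h2
    have h3 : 0 ≤ ρ (p + z) := by linarith
    rw [abs_of_nonneg ht, abs_of_nonneg h3]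
    refine ⟨⟨fun h => by linarith, fun h => by linarith⟩, by linarith, h2⟩
  · have e : z + t • N + (-t) • N = z := by module
    obtain ⟨h1, h2⟩ := ecd_mv hd (z + t • N) (-t) (by linarith) hzt (by rw [e]; exact hz)
    rw [e, h0, zero_sub] at h1 h2
    have h3 : ρ (p + z) ≤ 0 := by linarith
    rw [abs_of_nonpos ht, abs_of_nonpos h3]
    refine ⟨⟨fun h => by linarith, fun h => by linarith⟩, by linarith, h2⟩

/-- Implicit function theorem: a convex set with a `C^3` defining function near a boundary point has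
a convex `C^3` defining function `σ` near this point, which is a graph function in the direction `N`. -/
theorem exists_convex_defining
    {E : Type*} [NormedAddCommGroup E] [NormedSpace ℝ E] [CompleteSpace E]
    {D U : Set E} {ρ : E → ℝ} {p N : E}
    (hDc : Convex ℝ D) (hU : IsOpen U) (hpU : p ∈ U)
    (hρ : ContDiffOn ℝ 3 ρ U) (hρp : ρ p = 0) (hDU : ∀ z ∈ U, z ∈ D ↔ ρ z < 0)
    (hN : fderiv ℝ ρ p N = -1) :
    ∃ (σ : E → ℝ) (r : ℝ), 0 < r ∧ ContDiffOn ℝ 3 σ (ball 0 r) ∧ σ 0 = 0 ∧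
      fderiv ℝ σ 0 = fderiv ℝ ρ p ∧ ConvexOn ℝ (ball 0 r) σ ∧
      (∀ x ∈ ball (0 : E) r, p + x ∈ D ↔ σ x < 0) ∧
      (∀ x ∈ ball (0 : E) r, ∀ h : ℝ, x + h • N ∈ ball (0 : E) r → σ (x + h • N) = σ x - h) ∧
      (∀ x ∈ ball (0 : E) r, |σ x| ≤ 2 * |ρ (p + x)| ∧ |ρ (p + x)| ≤ 2 * |σ x|) := by
  set L : E →L[ℝ] ℝ := fderiv ℝ ρ p with hLdef
  have hρat : ContDiffAt ℝ 3 ρ p := hρ.contDiffAt (hU.mem_nhds hpU)
  have hLd : HasFDerivAt ρ L p := (hρat.differentiableAt (by norm_num)).hasFDerivAt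
  let Ψ : E → E := fun y => y + (L y - ρ (p + y)) • N
  have hΨ0 : Ψ 0 = 0 := by simp [Ψ, hρp]
  have hΨ : ContDiffAt ℝ 3 Ψ 0 := by
    have h1 : ContDiffAt ℝ 3 (fun y => ρ (p + y)) 0 := by
      have h2 : ContDiffAt ℝ 3 ρ (p + 0) := by simpa using hρat
      exact h2.comp 0 (contDiffAt_const.add contDiffAt_id)
    exact contDiffAt_id.add ((L.contDiff.contDiffAt.sub h1).smul contDiffAt_const)
  have hΨ' : HasFDerivAt Ψ ((ContinuousLinearEquiv.refl ℝ E : E ≃L[ℝ] E) : E →L[ℝ] E) 0 := by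
    have h1 : HasFDerivAt (fun y => ρ (p + y)) L 0 := by
      have h2 : HasFDerivAt ρ L (p + 0) := by simpa using hLd
      have h3 : HasFDerivAt (fun y : E => p + y) (ContinuousLinearMap.id ℝ E) 0 :=
        (hasFDerivAt_id 0).const_add p
      have h4 := h2.comp 0 h3
      rw [ContinuousLinearMap.comp_id] at h4
      exact h4
    have h5 := (hasFDerivAt_id (𝕜 := ℝ) (0 : E)).add ((L.hasFDerivAt.sub h1).smul_const N)
    refine h5.congr_fderiv ?_
    ext v
    simp
  have hn : (3 : WithTop ℕ∞) ≠ 0 := by norm_num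
  let Φ := hΨ.localInverse hΨ' hn
  have hΦ : ContDiffAt ℝ 3 Φ 0 := by
    have := hΨ.to_localInverse hΨ' hn
    rwa [hΨ0] at this
  have hΦ0 : Φ 0 = 0 := by
    have := hΨ.localInverse_apply_image hΨ' hn
    rwa [hΨ0] at this
  have hΦinv : ∀ᶠ y in 𝓝 (0 : E), Ψ (Φ y) = y := by
    have := (hΨ.hasStrictFDerivAt' hΨ' hn).eventually_right_inverse
    rwa [hΨ0] at this
  have hΦ' : HasFDerivAt Φ (ContinuousLinearMap.id ℝ E) 0 := by
    have := (hΨ.hasStrictFDerivAt' hΨ' hn).to_localInverse.hasFDerivAt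
    rw [hΨ0] at this
    exact this
  let π : E →L[ℝ] E := ContinuousLinearMap.id ℝ E + L.smulRight N
  have hπ : ∀ x, π x = x + L x • N := fun x => rfl
  let σ : E → ℝ := fun x => L x - L (Φ (π x))
  have hσ0 : σ 0 = 0 := by simp [σ, hΦ0]
  have hσC : ContDiffAt ℝ 3 σ 0 := by
    have h1 : ContDiffAt ℝ 3 (fun x => Φ (π x)) 0 := by
      have h2 : ContDiffAt ℝ 3 Φ (π 0) := by simpa using hΦ
      exact h2.comp 0 π.contDiff.contDiffAt
    exact L.contDiff.contDiffAt.sub (L.contDiff.contDiffAt.comp 0 h1)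
  have hσ' : HasFDerivAt σ L 0 := by
    have h1 : HasFDerivAt (fun x => Φ (π x)) ((ContinuousLinearMap.id ℝ E).comp π) 0 := by
      have h2 : HasFDerivAt Φ (ContinuousLinearMap.id ℝ E) (π 0) := by simpa using hΦ'
      exact h2.comp 0 π.hasFDerivAt
    have h2 := L.hasFDerivAt.sub (L.hasFDerivAt.comp 0 h1)
    refine h2.congr_fderiv ?_
    ext v
    simp [hπ, hN]
  have hzero : ∀ᶠ x in 𝓝 (0 : E), ρ (p + (x + σ x • N)) = 0 := by
    have ht : Tendsto π (𝓝 0) (𝓝 0) := by simpa using π.continuous.tendsto 0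
    filter_upwards [ht.eventually hΦinv] with x hx
    have h1 : Φ (π x) + (L (Φ (π x)) - ρ (p + Φ (π x))) • N = x + L x • N := hx
    have h2 : L (Φ (π x)) + (L (Φ (π x)) - ρ (p + Φ (π x))) * L N = L x + L x * L N := by
      have := congrArg L h1
      simpa only [map_add, map_smul, smul_eq_mul] using this
    rw [hN] at h2
    have h3 : ρ (p + Φ (π x)) = 0 := by linarith
    have h4 : x + σ x • N = Φ (π x) := by
      rw [h3, sub_zero] at h1
      show x + (L x - L (Φ (π x))) • N = Φ (π x)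
      rw [sub_smul]
      calc x + (L x • N - L (Φ (π x)) • N) = (x + L x • N) - L (Φ (π x)) • N := by abel
        _ = Φ (π x) := by
          rw [← h1]
          abel
    rw [h4, h3]
  have hcont : ContinuousAt (fun z => fderiv ℝ ρ z N) p := by
    have h1 := (hρ.continuousOn_fderiv_of_isOpen hU (by norm_num)).continuousAt (hU.mem_nhds hpU)
    exact h1.clm_apply continuousAt_const
  have hev : ∀ᶠ z in 𝓝 p, z ∈ U ∧ DifferentiableAt ℝ ρ z ∧ -2 ≤ fderiv ℝ ρ z N ∧
      fderiv ℝ ρ z N ≤ -1 / 2 := by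
    have e1 : ∀ᶠ z in 𝓝 p, fderiv ℝ ρ z N ∈ Ioo (-2 : ℝ) (-1 / 2) := by
      apply hcont.eventually_mem
      apply Ioo_mem_nhds
      · rw [show fderiv ℝ ρ p N = -1 from hN]
        norm_num
      · rw [show fderiv ℝ ρ p N = -1 from hN]
        norm_num
    have e2 : ∀ᶠ z in 𝓝 p, z ∈ U := hU.mem_nhds hpU
    filter_upwards [e1, e2] with z h1 h2
    exact ⟨h2, (hρ.contDiffAt (hU.mem_nhds h2)).differentiableAt (by norm_num), h1.1.le, h1.2.le⟩
  obtain ⟨δ, hδ, hball⟩ := Metric.eventually_nhds_iff_ball.mp hev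
  have hd : ∀ z ∈ ball p δ, DifferentiableAt ℝ ρ z ∧ -2 ≤ fderiv ℝ ρ z N ∧
      fderiv ℝ ρ z N ≤ -1 / 2 := fun z hz => (hball z hz).2
  have hσcont : ContinuousAt σ 0 := hσC.continuousAt
  have hshift : ∀ᶠ x in 𝓝 (0 : E), p + (x + σ x • N) ∈ ball p δ := by
    have h1 : ContinuousAt (fun x => p + (x + σ x • N)) 0 :=
      continuousAt_const.add (continuousAt_id.add (hσcont.smul continuousAt_const))
    apply h1.eventually_mem
    have h2 : p + ((0 : E) + σ 0 • N) = p := by simp [hσ0]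
    rw [h2]
    exact ball_mem_nhds p hδ
  have hsimple : ∀ᶠ x in 𝓝 (0 : E), p + x ∈ ball p δ := by
    have h1 : ContinuousAt (fun x : E => p + x) 0 := by fun_prop
    apply h1.eventually_mem
    rw [add_zero]
    exact ball_mem_nhds p hδ
  have hCev : ∀ᶠ x in 𝓝 (0 : E), ContDiffAt ℝ 3 σ x := hσC.eventually (by decide)
  obtain ⟨r, hr, hR⟩ := Metric.eventually_nhds_iff_ball.mp
    (hzero.and (hshift.and (hsimple.and hCev)))
  refine ⟨σ, r, hr, fun x hx => (hR x hx).2.2.2.contDiffWithinAt, hσ0, hσ'.fderiv, ?_, ?_, ?_, ?_⟩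
  · refine ⟨convex_ball 0 r, fun x hx y hy a b ha hb hab => ?_⟩
    have hw := (convex_ball (0 : E) r) hx hy ha hb hab
    obtain ⟨hw0, hws, -, -⟩ := hR _ hw
    have evx : ∀ z ∈ ball (0 : E) r, ∀ᶠ ε in 𝓝[>] (0 : ℝ),
        p + (z + (σ z + ε) • N) ∈ ball p δ ∧ p + (z + (σ z + ε) • N) ∈ D := by
      intro z hz
      obtain ⟨hz0, hzs, -, -⟩ := hR z hz
      have c1 : ContinuousAt (fun ε : ℝ => p + (z + (σ z + ε) • N)) 0 := by fun_prop
      have e1 : ∀ᶠ ε in 𝓝 (0 : ℝ), p + (z + (σ z + ε) • N) ∈ ball p δ := by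
        apply c1.eventually_mem
        rw [add_zero]
        exact isOpen_ball.mem_nhds hzs
      filter_upwards [e1.filter_mono nhdsWithin_le_nhds, self_mem_nhdsWithin] with ε h1 h2
      refine ⟨h1, ?_⟩
      rw [hDU _ (hball _ h1).1]
      have e : z + (σ z + ε) • N + (-ε) • N = z + σ z • N := by module
      refine ((ecd_key hd _ (-ε) h1 (by rw [e]; exact hzs) (by rw [e]; exact hz0)).1).mpr ?_
      have h3 : 0 < ε := h2
      linarith
    have hmain : ∀ᶠ ε in 𝓝[>] (0 : ℝ), σ (a • x + b • y) ≤ a * σ x + b * σ y + ε := by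
      filter_upwards [evx x hx, evx y hy] with ε h1 h2
      have hcomb : a • (p + (x + (σ x + ε) • N)) + b • (p + (y + (σ y + ε) • N)) =
          p + ((a • x + b • y) + (a * σ x + b * σ y + ε) • N) := by
        have hb' : b = 1 - a := by linarith
        rw [hb']
        module
      have hD := hDc h1.2 h2.2 ha hb hab
      have hB := (convex_ball p δ) h1.1 h2.1 ha hb hab
      rw [hcomb] at hD hB
      have hneg := (hDU _ (hball _ hB).1).mp hD
      have e : (a • x + b • y) + (a * σ x + b * σ y + ε) • N +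
          (σ (a • x + b • y) - (a * σ x + b * σ y + ε)) • N =
          (a • x + b • y) + σ (a • x + b • y) • N := by module
      have h3 := ((ecd_key hd _ (σ (a • x + b • y) - (a * σ x + b * σ y + ε)) hB
        (by rw [e]; exact hws) (by rw [e]; exact hw0)).1).mp hneg
      linarith
    have hlim : Tendsto (fun ε : ℝ => a * σ x + b * σ y + ε) (𝓝[>] 0)
        (𝓝 (a * σ x + b * σ y)) := by
      have h1 : Tendsto (fun ε : ℝ => a * σ x + b * σ y + ε) (𝓝 0)
          (𝓝 (a * σ x + b * σ y + 0)) := tendsto_const_nhds.add tendsto_id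
      rw [add_zero] at h1
      exact h1.mono_left nhdsWithin_le_nhds
    have := ge_of_tendsto hlim hmain
    simpa only [smul_eq_mul] using this
  · intro x hx
    obtain ⟨hx0, hxs, hxb, -⟩ := hR x hx
    rw [hDU _ (hball _ hxb).1]
    exact (ecd_key hd x (σ x) hxb hxs hx0).1
  · intro x hx h hxh
    obtain ⟨hx0, hxs, hxb, -⟩ := hR x hx
    obtain ⟨hy0, hys, hyb, -⟩ := hR _ hxh
    have e : x + σ x • N + (h + σ (x + h • N) - σ x) • N = x + h • N + σ (x + h • N) • N := by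
      module
    have h1 := (ecd_key hd (x + σ x • N) (h + σ (x + h • N) - σ x) hxs
      (by rw [e]; exact hys) (by rw [e]; exact hy0)).2.1
    rw [hx0, abs_zero, mul_zero] at h1
    have h2 : h + σ (x + h • N) - σ x = 0 := abs_eq_zero.mp (le_antisymm h1 (abs_nonneg _))
    linarith
  · intro x hx
    obtain ⟨hx0, hxs, hxb, -⟩ := hR x hx
    exact (ecd_key hd x (σ x) hxb hxs hx0).2


end Sq58
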