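import Mathlib
set_option autoImplicit false

open Metric Set Filter Topology

namespace Sq58


/-- Second order test on a real line: a convex domain has nonnegative tangential Hessian. -/
theorem levi_zero_aux {E : Type*} [NormedAddCommGroup E] [NormedSpace ℝ E] {D U : Set E} {ρ : E → ℝ}
    {p u : E} (hDc : Convex ℝ D) (hU : IsOpen U) (hpU : p ∈ U)
    (hρ : ContDiffOn ℝ (⊤ : ℕ∞) ρ U) (hρp : ρ p = 0) (hDU : ∀ z ∈ U, z ∈ D ↔ ρ z < 0)
    (h1 : fderiv ℝ ρ p u = 0) : 0 ≤ fderiv ℝ (fderiv ℝ ρ) p u u := by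
  by_contra hneg
  push Not at hneg
  obtain ⟨c, hc⟩ : ∃ c : ℝ, c = fderiv ℝ (fderiv ℝ ρ) p u u := ⟨_, rfl⟩
  rw [← hc] at hneg
  have hline : ∀ s : ℝ, HasDerivAt (fun s : ℝ => p + s • u) u s := by
    intro s
    have := ((hasDerivAt_id s).smul_const u).const_add p
    simpa using this
  have hcont : Continuous (fun s : ℝ => p + s • u) := by fun_prop
  have hev : ∀ᶠ s : ℝ in 𝓝 0, p + s • u ∈ U := by
    have : (fun s : ℝ => p + s • u) ⁻¹' U ∈ 𝓝 (0 : ℝ) :=
      hcont.continuousAt.preimage_mem_nhds (by simpa using hU.mem_nhds hpU)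
    exact this
  have hdρ : ∀ y ∈ U, HasFDerivAt ρ (fderiv ℝ ρ y) y := by
    intro y hy
    exact ((hρ.contDiffAt (hU.mem_nhds hy)).differentiableAt (by simp)).hasFDerivAt
  have hd2 : HasFDerivAt (fderiv ℝ ρ) (fderiv ℝ (fderiv ℝ ρ) p) p := by
    have h := (hρ.contDiffAt (hU.mem_nhds hpU)).fderiv_right (m := 1) (by
      have h : ((2 : ℕ∞) : WithTop ℕ∞) ≤ ((⊤ : ℕ∞) : WithTop ℕ∞) := WithTop.coe_le_coe.mpr le_top
      have e : ((1 : WithTop ℕ∞) + 1) = ((2 : ℕ∞) : WithTop ℕ∞) := by norm_num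
      rw [e]; exact h)
    exact (h.differentiableAt (by simp)).hasFDerivAt
  have hder : ∀ s : ℝ, p + s • u ∈ U →
      HasDerivAt (fun s : ℝ => ρ (p + s • u)) (fderiv ℝ ρ (p + s • u) u) s := by
    intro s hs
    exact HasFDerivAt.comp_hasDerivAt s (hdρ _ hs) (hline s)
  have hder2 : HasDerivAt (fun s : ℝ => fderiv ℝ ρ (p + s • u) u) c 0 := by
    have h0 : HasFDerivAt (fderiv ℝ ρ) (fderiv ℝ (fderiv ℝ ρ) p) (p + (0 : ℝ) • u) := by
      simpa using hd2
    have h := HasFDerivAt.comp_hasDerivAt (0 : ℝ) h0 (hline 0)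
    have h' := h.clm_apply (hasDerivAt_const (0 : ℝ) u)
    simpa [hc] using h'
  -- the auxiliary function
  obtain ⟨f, hf⟩ : ∃ f : ℝ → ℝ, f = fun s => ρ (p + s • u) - (c / 4) * s ^ 2 := ⟨_, rfl⟩
  have hfd : ∀ s : ℝ, p + s • u ∈ U →
      HasDerivAt f (fderiv ℝ ρ (p + s • u) u - (c / 2) * s) s := by
    intro s hs
    rw [hf]
    have h2 : HasDerivAt (fun s : ℝ => (c / 4) * s ^ 2) ((c / 2) * s) s := by
      have := (hasDerivAt_pow 2 s).const_mul (c / 4)
      refine this.congr_deriv ?_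
      simp
      ring
    exact (hder s hs).sub h2
  have hfe : deriv f =ᶠ[𝓝 0] fun s => fderiv ℝ ρ (p + s • u) u - (c / 2) * s := by
    filter_upwards [hev] with s hs
    exact (hfd s hs).deriv
  have hf2 : deriv (deriv f) 0 = c / 2 := by
    rw [hfe.deriv_eq]
    have h3 : HasDerivAt (fun s : ℝ => (c / 2) * s) (c / 2) 0 := by
      simpa using (hasDerivAt_id (0 : ℝ)).const_mul (c / 2)
    have := (hder2.sub h3).deriv
    have e : (fun s : ℝ => fderiv ℝ ρ (p + s • u) u - (c / 2) * s) =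
      ((fun s : ℝ => fderiv ℝ ρ (p + s • u) u) - fun s : ℝ => (c / 2) * s) := rfl
    rw [e, this]
    ring
  have h0U : p + (0 : ℝ) • u ∈ U := by simpa using hpU
  have hf1 : deriv f 0 = 0 := by
    rw [(hfd 0 h0U).deriv]
    simp [h1]
  have hfc : ContinuousAt f 0 := (hfd 0 h0U).continuousAt
  have hmax : IsLocalMax f 0 := isLocalMax_of_deriv_deriv_neg (by rw [hf2]; linarith) hf1 hfc
  have hmax' : ∀ᶠ s : ℝ in 𝓝 0, f s ≤ f 0 := hmax
  have hf0 : f 0 = 0 := by rw [hf]; simp [hρp]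
  have hboth : ∀ᶠ s : ℝ in 𝓝 0, f s ≤ f 0 ∧ p + s • u ∈ U := hmax'.and hev
  rw [Metric.eventually_nhds_iff] at hboth
  obtain ⟨ε, hε, hb⟩ := hboth
  have key : ∀ s : ℝ, s ≠ 0 → |s| < ε → p + s • u ∈ D := by
    intro s hs0 hs
    have h := hb (y := s) (by simpa [Real.dist_eq] using hs)
    rw [hDU _ h.2]
    have h3 := h.1
    rw [hf0, hf] at h3
    beta_reduce at h3
    have h4 : 0 < s ^ 2 := by positivity
    nlinarith
  have hp1 := key (ε / 2) (by positivity) (by rw [abs_of_pos (by positivity)]; linarith)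
  have hp2 := key (-(ε / 2)) (by linarith) (by rw [abs_neg, abs_of_pos (by positivity)]; linarith)
  have hmid : p ∈ D := by
    have := hDc hp1 hp2 (a := 1 / 2) (b := 1 / 2) (by norm_num) (by norm_num) (by norm_num)
    have e : (1 / 2 : ℝ) • (p + (ε / 2) • u) + (1 / 2 : ℝ) • (p + (-(ε / 2)) • u) = p := by
      module
    rwa [e] at this
  rw [hDU p hpU, hρp] at hmid
  exact lt_irrefl _ hmid

/-- If the Levi form of a convex domain is nonpositive on the complex tangential vector `v`, then the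
first and second derivatives at `0` of the defining function restricted to the complex line
`p + ℂ v` vanish. -/
theorem levi_zero {E : Type*} [NormedAddCommGroup E] [NormedSpace ℂ E] {D U : Set E} {ρ : E → ℝ}
    {p v : E} (hDc : Convex ℝ D) (hU : IsOpen U) (hpU : p ∈ U)
    (hρ : ContDiffOn ℝ (⊤ : ℕ∞) ρ U) (hρp : ρ p = 0) (hDU : ∀ z ∈ U, z ∈ D ↔ ρ z < 0)
    (h1 : fderiv ℝ ρ p v = 0) (h2 : fderiv ℝ ρ p (Complex.I • v) = 0)
    (hL : iteratedFDeriv ℝ 2 ρ p ![v, v]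
      + iteratedFDeriv ℝ 2 ρ p ![Complex.I • v, Complex.I • v] ≤ 0) :
    iteratedFDeriv ℝ 1 (fun ζ : ℂ => ρ (p + ζ • v)) 0 = 0 ∧
      iteratedFDeriv ℝ 2 (fun ζ : ℂ => ρ (p + ζ • v)) 0 = 0 := by
  obtain ⟨L, hL0⟩ : ∃ L : ℂ →L[ℝ] E, ∀ z : ℂ, L z = z • v := by
    refine ⟨((ContinuousLinearMap.id ℂ ℂ).smulRight v).restrictScalars ℝ, fun z => by simp⟩
  have hdρ : ∀ y ∈ U, HasFDerivAt ρ (fderiv ℝ ρ y) y := by
    intro y hy
    exact ((hρ.contDiffAt (hU.mem_nhds hy)).differentiableAt (by simp)).hasFDerivAt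
  have hd2 : HasFDerivAt (fderiv ℝ ρ) (fderiv ℝ (fderiv ℝ ρ) p) p := by
    have h := (hρ.contDiffAt (hU.mem_nhds hpU)).fderiv_right (m := 1) (by
      have h : ((2 : ℕ∞) : WithTop ℕ∞) ≤ ((⊤ : ℕ∞) : WithTop ℕ∞) := WithTop.coe_le_coe.mpr le_top
      have e : ((1 : WithTop ℕ∞) + 1) = ((2 : ℕ∞) : WithTop ℕ∞) := by norm_num
      rw [e]; exact h)
    exact (h.differentiableAt (by simp)).hasFDerivAt
  have hsymm : IsSymmSndFDerivAt ℝ ρ p :=
    (hρ.contDiffAt (hU.mem_nhds hpU)).isSymmSndFDerivAt (by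
      simp only [minSmoothness_of_isRCLikeNormedField]
      have h : ((2 : ℕ∞) : WithTop ℕ∞) ≤ ((⊤ : ℕ∞) : WithTop ℕ∞) := WithTop.coe_le_coe.mpr le_top
      exact h)
  have hdecomp : ∀ w : ℂ, w • v = w.re • v + w.im • (Complex.I • v) := by
    intro w
    conv_lhs => rw [← Complex.re_add_im w]
    rw [add_smul, mul_smul]
    simp only [Complex.coe_smul]
  have hfd0 : ∀ w : ℂ, fderiv ℝ ρ p (w • v) = 0 := by
    intro w
    rw [hdecomp, map_add, map_smul, map_smul, h1, h2]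
    simp
  have hLline : ∀ ζ : ℂ, HasFDerivAt (fun ζ : ℂ => p + ζ • v) L ζ := by
    intro ζ
    have := (L.hasFDerivAt (x := ζ)).const_add p
    simpa [hL0] using this
  have hcont : Continuous (fun s : ℂ => p + s • v) := by fun_prop
  have hev : ∀ᶠ s : ℂ in 𝓝 0, p + s • v ∈ U := by
    have : (fun s : ℂ => p + s • v) ⁻¹' U ∈ 𝓝 (0 : ℂ) :=
      hcont.continuousAt.preimage_mem_nhds (by simpa using hU.mem_nhds hpU)
    exact this
  have hder : ∀ s : ℂ, p + s • v ∈ U →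
      HasFDerivAt (fun s : ℂ => ρ (p + s • v)) ((fderiv ℝ ρ (p + s • v)).comp L) s := by
    intro s hs
    exact HasFDerivAt.comp (g := ρ) (f := fun s : ℂ => p + s • v) s (hdρ _ hs) (hLline s)
  have h0U : p + (0 : ℂ) • v ∈ U := by simpa using hpU
  have hfe : fderiv ℝ (fun s : ℂ => ρ (p + s • v)) =ᶠ[𝓝 0]
      fun s => (fderiv ℝ ρ (p + s • v)).comp L := by
    filter_upwards [hev] with s hs
    exact (hder s hs).fderiv
  have hder2 : ∀ a b : ℂ, fderiv ℝ (fderiv ℝ (fun s : ℂ => ρ (p + s • v))) 0 a b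
      = fderiv ℝ (fderiv ℝ ρ) p (a • v) (b • v) := by
    intro a b
    rw [hfe.fderiv_eq]
    have h0 : HasFDerivAt (fderiv ℝ ρ) (fderiv ℝ (fderiv ℝ ρ) p) (p + (0 : ℂ) • v) := by
      simpa using hd2
    have h := HasFDerivAt.comp (g := fderiv ℝ ρ) (f := fun s : ℂ => p + s • v) (0 : ℂ) h0 (hLline 0)
    have h' := h.clm_comp (hasFDerivAt_const L (0 : ℂ))
    have h'' := h'.fderiv
    have e : (fun s : ℂ => (fderiv ℝ ρ (p + s • v)).comp L) =
      fun y => ((fderiv ℝ ρ ∘ fun s : ℂ => p + s • v) y).comp L := rfl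
    rw [e, h'']
    simp [hL0]
  have hB : ∀ w : ℂ, 0 ≤ fderiv ℝ (fderiv ℝ ρ) p (w • v) (w • v) := fun w =>
    levi_zero_aux hDc hU hpU hρ hρp hDU (hfd0 w)
  rw [iteratedFDeriv_two_apply, iteratedFDeriv_two_apply] at hL
  simp only [Matrix.cons_val_zero, Matrix.cons_val_one] at hL
  obtain ⟨B, hBd⟩ : ∃ B : E →L[ℝ] E →L[ℝ] ℝ, B = fderiv ℝ (fderiv ℝ ρ) p := ⟨_, rfl⟩
  rw [← hBd] at hL hB hder2
  have hs : ∀ x y, B x y = B y x := by
    intro x y
    rw [hBd]
    exact hsymm x y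
  have hexp : ∀ a b : ℂ, B (a • v) (b • v) = a.re * b.re * B v v
      + (a.re * b.im + a.im * b.re) * B v (Complex.I • v)
      + a.im * b.im * B (Complex.I • v) (Complex.I • v) := by
    intro a b
    rw [hdecomp a, hdecomp b]
    simp only [map_add, map_smul, add_apply, smul_apply,
      smul_eq_mul]
    rw [hs (Complex.I • v) v]
    ring
  have hB1 := hB 1
  have hBI := hB Complex.I
  have hBp := hB (1 + Complex.I)
  have hBm := hB (1 - Complex.I)
  rw [hexp] at hB1 hBI hBp hBm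
  simp at hB1 hBI hBp hBm
  have e1 : B v v = 0 := by linarith
  have e2 : B (Complex.I • v) (Complex.I • v) = 0 := by linarith
  have e3 : B v (Complex.I • v) = 0 := by
    rw [e1, e2] at hBp hBm
    linarith
  constructor
  · ext m
    rw [iteratedFDeriv_one_apply, (hder 0 h0U).fderiv]
    simp [hL0, hfd0]
  · ext m
    rw [iteratedFDeriv_two_apply, hder2, hexp, e1, e2, e3]
    simp


end Sq58
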