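import Mathlib
set_option autoImplicit false

open Metric Set Filter Topology

namespace Sq58


theorem order_facts_one_le : (((⊤ : ℕ∞) : WithTop ℕ∞)) + 1 ≤ ((⊤ : ℕ∞) : WithTop ℕ∞) := by
  exact le_rfl

theorem order_facts_smooth {F : ℂ → ℝ} {W : Set ℂ} (hW : IsOpen W)
    (hF : ContDiffOn ℝ (⊤ : ℕ∞) F W) (l : List ℂ) :
    ContDiffOn ℝ (⊤ : ℕ∞) (l.foldr (fun v G y => fderiv ℝ G y v) F) W := by
  induction l with
  | nil => exact hF
  | cons v l ih =>
    rw [List.foldr_cons]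
    exact (ih.fderiv_of_isOpen hW order_facts_one_le).clm_apply contDiffOn_const

theorem order_facts_symm {G : ℂ → ℝ} {W : Set ℂ} (hW : IsOpen W)
    (hG : ContDiffOn ℝ (⊤ : ℕ∞) G W) (y : ℂ) (hy : y ∈ W) (v w : ℂ) :
    fderiv ℝ (fun y => fderiv ℝ G y w) y v = fderiv ℝ (fun y => fderiv ℝ G y v) y w := by
  have h1 : ContDiffAt ℝ (⊤ : ℕ∞) G y := hG.contDiffAt (hW.mem_nhds hy)
  have h2 : IsSymmSndFDerivAt ℝ G y := by
    apply h1.isSymmSndFDerivAt
    rw [minSmoothness_of_isRCLikeNormedField]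
    have h : (2 : WithTop ℕ∞) = ((2 : ℕ∞) : WithTop ℕ∞) := rfl
    rw [h]
    exact_mod_cast (le_top : (2 : ℕ∞) ≤ ⊤)
  have h3 : DifferentiableAt ℝ (fderiv ℝ G) y := by
    have h4 : ContDiffOn ℝ (⊤ : ℕ∞) (fderiv ℝ G) W := hG.fderiv_of_isOpen hW order_facts_one_le
    exact (h4.contDiffAt (hW.mem_nhds hy)).differentiableAt (by simp)
  have h5 : ∀ u : ℂ, ∀ u' : ℂ, fderiv ℝ (fun y => fderiv ℝ G y u) y u' =
      fderiv ℝ (fderiv ℝ G) y u' u := by
    intro u u'
    have h6 := (h3.hasFDerivAt.clm_apply (hasFDerivAt_const u y)).fderiv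
    rw [h6]
    simp
  rw [h5, h5]
  exact h2 v w

theorem order_facts_perm {F : ℂ → ℝ} {W : Set ℂ} (hW : IsOpen W)
    (hF : ContDiffOn ℝ (⊤ : ℕ∞) F W) {l₁ l₂ : List ℂ} (h : l₁.Perm l₂) :
    ∀ y ∈ W, l₁.foldr (fun v G y => fderiv ℝ G y v) F y =
      l₂.foldr (fun v G y => fderiv ℝ G y v) F y := by
  induction h with
  | nil => intro y _; rfl
  | cons v _ ih =>
    intro y hy
    rw [List.foldr_cons, List.foldr_cons]
    have h1 : (List.foldr (fun v G y => fderiv ℝ G y v) F _) =ᶠ[𝓝 y]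
        (List.foldr (fun v G y => fderiv ℝ G y v) F _) :=
      Filter.eventuallyEq_of_mem (hW.mem_nhds hy) ih
    show fderiv ℝ _ y v = fderiv ℝ _ y v
    rw [h1.fderiv_eq]
  | swap v w l =>
    intro y hy
    rw [List.foldr_cons, List.foldr_cons, List.foldr_cons, List.foldr_cons]
    exact order_facts_symm hW (order_facts_smooth hW hF l) y hy _ _
  | trans _ _ ih1 ih2 =>
    intro y hy
    rw [ih1 y hy, ih2 y hy]

theorem order_facts_iter {F : ℂ → ℝ} {W : Set ℂ} (hW : IsOpen W)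
    (hF : ContDiffOn ℝ (⊤ : ℕ∞) F W) (n : ℕ) :
    ∀ y ∈ W, ∀ v : Fin n → ℂ, iteratedFDeriv ℝ n F y v =
      (List.ofFn v).foldr (fun v G y => fderiv ℝ G y v) F y := by
  induction n with
  | zero =>
    intro y _ v
    rw [iteratedFDeriv_zero_apply, List.ofFn_zero, List.foldr_nil]
  | succ n ih =>
    intro y hy v
    rw [iteratedFDeriv_succ_apply_left, List.ofFn_succ, List.foldr_cons]
    have hd : DifferentiableAt ℝ (iteratedFDeriv ℝ n F) y := by
      have h1 : ContDiffAt ℝ (⊤ : ℕ∞) F y := hF.contDiffAt (hW.mem_nhds hy)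
      have h2 : ContDiffAt ℝ 1 (iteratedFDeriv ℝ n F) y := by
        apply h1.iteratedFDeriv_right
        have h3 : (1 : WithTop ℕ∞) + n = (((1 + n : ℕ) : ℕ∞) : WithTop ℕ∞) := by
          push_cast
          rfl
        rw [h3]
        exact_mod_cast le_top
      exact h2.differentiableAt (by norm_num)
    have h4 : HasFDerivAt (fun y => iteratedFDeriv ℝ n F y (Fin.tail v))
        ((ContinuousMultilinearMap.apply ℝ (fun _ : Fin n => ℂ) ℝ (Fin.tail v)).comp
          (fderiv ℝ (iteratedFDeriv ℝ n F) y)) y :=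
      (ContinuousMultilinearMap.apply ℝ (fun _ : Fin n => ℂ) ℝ (Fin.tail v)).hasFDerivAt.comp y
        hd.hasFDerivAt
    have h5 : (fderiv ℝ (iteratedFDeriv ℝ n F) y (v 0)) (Fin.tail v) =
        fderiv ℝ (fun y => iteratedFDeriv ℝ n F y (Fin.tail v)) y (v 0) := by
      rw [h4.fderiv]
      rfl
    have h6 : (fun y => iteratedFDeriv ℝ n F y (Fin.tail v)) =ᶠ[𝓝 y]
        (List.foldr (fun v G y => fderiv ℝ G y v) F (List.ofFn (Fin.tail v))) :=
      Filter.eventuallyEq_of_mem (hW.mem_nhds hy) (fun z hz => ih z hz _)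
    rw [h5, h6.fderiv_eq]
    rfl

theorem order_facts_polar {F : ℂ → ℝ} {W : Set ℂ} (hW : IsOpen W) (h0 : (0 : ℂ) ∈ W)
    (hF : ContDiffOn ℝ (⊤ : ℕ∞) F W) (k : ℕ)
    (h : ∀ z : ℂ, iteratedFDeriv ℝ k F 0 (fun _ => z) = 0) : iteratedFDeriv ℝ k F 0 = 0 := by
  ext v
  have h1 := (iteratedFDeriv ℝ k F 0).iteratedFDeriv_comp_diagonal 0 v
  have h2 : (fun x : ℂ => iteratedFDeriv ℝ k F 0 (fun _ => x)) = fun _ => 0 := funext h
  rw [h2] at h1
  have h3 : ∀ σ : Equiv.Perm (Fin k), iteratedFDeriv ℝ k F 0 (fun i => v (σ i)) =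
      iteratedFDeriv ℝ k F 0 v := by
    intro σ
    rw [order_facts_iter hW hF k 0 h0, order_facts_iter hW hF k 0 h0]
    exact order_facts_perm hW hF (σ.ofFn_comp_perm v) 0 h0
  rw [Finset.sum_congr rfl (fun σ _ => h3 σ), Finset.sum_const, nsmul_eq_mul] at h1
  have h4 : iteratedFDeriv ℝ k (fun _ : ℂ => (0 : ℝ)) 0 v = 0 := by
    have : iteratedFDeriv ℝ k (fun _ : ℂ => (0 : ℝ)) = 0 := iteratedFDeriv_fun_zero
    rw [this]
    rfl
  rw [h4] at h1
  have h5 : ((Finset.univ : Finset (Equiv.Perm (Fin k))).card : ℝ) ≠ 0 := by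
    have : 0 < (Finset.univ : Finset (Equiv.Perm (Fin k))).card :=
      Finset.card_pos.2 ⟨1, Finset.mem_univ _⟩
    exact_mod_cast this.ne'
  have h6 := (mul_eq_zero.1 h1.symm).resolve_left h5
  rw [h6]
  rfl

theorem order_facts_ray {F : ℂ → ℝ} {W : Set ℂ} (hW : IsOpen W)
    (hF : ContDiffOn ℝ (⊤ : ℕ∞) F W) (η : ℂ) (j : ℕ) (s : ℝ) (hs : (s : ℂ) * η ∈ W) :
    HasDerivAt (fun s : ℝ => iteratedFDeriv ℝ j F (s * η) (fun _ => η))
      (iteratedFDeriv ℝ (j + 1) F (s * η) (fun _ => η)) s := by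
  have h1 : HasDerivAt (fun s : ℝ => (s : ℂ) * η) η s := by
    have := (Complex.ofRealCLM.hasDerivAt (x := s)).mul_const η
    simpa using this
  have h2 := (order_facts_smooth hW hF (List.ofFn (fun _ : Fin j => η))).contDiffAt
    (hW.mem_nhds hs)
  have h3 := (h2.differentiableAt (by simp)).hasFDerivAt.comp_hasDerivAt s h1
  have h4 : ∀ᶠ t : ℝ in 𝓝 s, (t : ℂ) * η ∈ W := by
    have hc : ContinuousAt (fun t : ℝ => (t : ℂ) * η) s := h1.continuousAt
    exact hc.eventually (hW.mem_nhds hs)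
  have h5 : (fun s : ℝ => iteratedFDeriv ℝ j F (s * η) (fun _ => η)) =ᶠ[𝓝 s]
      ((List.ofFn (fun _ : Fin j => η)).foldr (fun v G y => fderiv ℝ G y v) F) ∘
        (fun s : ℝ => (s : ℂ) * η) := by
    filter_upwards [h4] with t ht
    exact order_facts_iter hW hF j _ ht _
  rw [order_facts_iter hW hF (j + 1) _ hs, List.ofFn_succ, List.foldr_cons]
  exact h3.congr_of_eventuallyEq h5

theorem order_facts_mono (k : ℕ) : ∀ (ψ : ℕ → ℝ → ℝ) (r b : ℝ),
    (∀ j, ∀ s ∈ Set.Icc 0 r, HasDerivAt (ψ j) (ψ (j + 1) s) s) → (∀ j < k, ψ j 0 = 0) →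
    (∀ s ∈ Set.Icc 0 r, b ≤ ψ k s) → ∀ s ∈ Set.Icc 0 r, b * s ^ k / k.factorial ≤ ψ 0 s := by
  induction k with
  | zero =>
    intro ψ r b _ _ hb s hs
    simpa using hb s hs
  | succ k ih =>
    intro ψ r b hd h0 hb s hs
    have h1 := ih (fun j => ψ (j + 1)) r b (fun j s hs => hd (j + 1) s hs)
      (fun j hj => h0 (j + 1) (by omega)) hb
    have hder : ∀ t : ℝ, HasDerivAt (fun t : ℝ => b * t ^ (k + 1) / (k + 1).factorial)
        (b * t ^ k / k.factorial) t := by
      intro t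
      have h2 := ((hasDerivAt_pow (k + 1) t).const_mul b).div_const ((k + 1).factorial : ℝ)
      have h3 : b * (((k + 1 : ℕ) : ℝ) * t ^ (k + 1 - 1)) / ((k + 1).factorial : ℝ) =
          b * t ^ k / k.factorial := by
        rw [Nat.factorial_succ, Nat.add_sub_cancel]
        have h4 : ((k + 1 : ℕ) : ℝ) ≠ 0 := by positivity
        have h5 : (k.factorial : ℝ) ≠ 0 := by positivity
        push_cast at h4 ⊢
        field_simp
      rw [h3] at h2
      exact h2
    have hmono : MonotoneOn (fun t => ψ 0 t - b * t ^ (k + 1) / (k + 1).factorial)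
        (Set.Icc 0 r) := by
      apply monotoneOn_of_deriv_nonneg (convex_Icc 0 r)
      · intro t ht
        exact ((hd 0 t ht).sub (hder t)).continuousAt.continuousWithinAt
      · intro t ht
        exact ((hd 0 t (interior_subset ht)).sub (hder t)).differentiableAt.differentiableWithinAt
      · intro t ht
        have h6 := ((hd 0 t (interior_subset ht)).sub (hder t)).deriv
        have h7 := h1 t (interior_subset ht)
        have h8 : deriv (fun t => ψ 0 t - b * t ^ (k + 1) / (k + 1).factorial) t =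
            ψ (0 + 1) t - b * t ^ k / k.factorial := h6
        rw [h8]
        linarith
    have h0r : (0 : ℝ) ∈ Set.Icc 0 r := ⟨le_rfl, hs.1.trans hs.2⟩
    have h9 := hmono h0r hs hs.1
    simp only [h0 0 (Nat.succ_pos k)] at h9
    rw [zero_pow (Nat.succ_ne_zero k)] at h9
    simp only [mul_zero, zero_div, sub_zero] at h9
    linarith

/-- Order of vanishing of a smooth function of one complex variable. -/
theorem order_facts {F : ℂ → ℝ} {W : Set ℂ} (hW : IsOpen W) (h0 : (0 : ℂ) ∈ W)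
    (hF : ContDiffOn ℝ (⊤ : ℕ∞) F W) (hF0 : F 0 = 0)
    (hfin : ∃ k : ℕ, 1 ≤ k ∧ iteratedFDeriv ℝ k F 0 ≠ 0)
    (h1 : iteratedFDeriv ℝ 1 F 0 = 0) (h2 : iteratedFDeriv ℝ 2 F 0 = 0) :
    ∃ k : ℕ, 3 ≤ k ∧
      (∃ C r : ℝ, 0 < C ∧ 0 < r ∧ ∀ ζ : ℂ, ‖ζ‖ < r → |F ζ| ≤ C * ‖ζ‖ ^ k) ∧
      ∃ η : ℂ, ‖η‖ = 1 ∧ ∃ c r : ℝ, 0 < c ∧ 0 < r ∧
        ∀ s : ℝ, 0 < s → s < r → c * s ^ k ≤ |F (s * η)| := by
  classical
  obtain ⟨hk1, hkT⟩ := Nat.find_spec hfin
  have hmin : ∀ j < Nat.find hfin, 1 ≤ j → iteratedFDeriv ℝ j F 0 = 0 := by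
    intro j hj hj1
    by_contra hne
    exact Nat.find_min hfin hj ⟨hj1, hne⟩
  generalize Nat.find hfin = k at hk1 hkT hmin
  have hz : ∀ j < k, iteratedFDeriv ℝ j F 0 = 0 := by
    intro j hj
    rcases Nat.eq_zero_or_pos j with rfl | hj0
    · ext v
      rw [iteratedFDeriv_zero_apply, hF0]
      rfl
    · exact hmin j hj hj0
  have hk3 : 3 ≤ k := by
    by_contra hlt
    push Not at hlt
    interval_cases k
    · exact hkT h1
    · exact hkT h2
  obtain ⟨ε, hε, hball⟩ := Metric.isOpen_iff.1 hW 0 h0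
  have hmem : ∀ η : ℂ, ‖η‖ = 1 → ∀ s ∈ Set.Icc (0 : ℝ) (ε / 2), (s : ℂ) * η ∈ Metric.closedBall (0 : ℂ) (ε / 2) := by
    intro η hη s hs
    rw [mem_closedBall_zero_iff, norm_mul, hη, mul_one, Complex.norm_real, Real.norm_eq_abs,
      abs_of_nonneg hs.1]
    exact hs.2
  have hsub : Metric.closedBall (0 : ℂ) (ε / 2) ⊆ W := by
    intro z hz
    apply hball
    rw [mem_ball_zero_iff]
    rw [mem_closedBall_zero_iff] at hz
    linarith
  obtain ⟨M, hM⟩ := (isCompact_closedBall (0 : ℂ) (ε / 2)).exists_bound_of_continuousOn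
    (f := iteratedFDeriv ℝ k F) (by
      intro z hz
      have h3 : ContDiffAt ℝ (⊤ : ℕ∞) F z := hF.contDiffAt (hW.mem_nhds (hsub hz))
      have h4 : ContDiffAt ℝ 0 (iteratedFDeriv ℝ k F) z := by
        apply h3.iteratedFDeriv_right
        rw [zero_add]
        exact_mod_cast (le_top : (k : ℕ∞) ≤ ⊤)
      exact h4.continuousAt.continuousWithinAt)
  have hM0 : 0 ≤ M := (norm_nonneg _).trans (hM 0 (by rw [mem_closedBall_zero_iff, norm_zero]; linarith))
  have hfact : (1 : ℝ) ≤ k.factorial := by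
    exact_mod_cast Nat.one_le_iff_ne_zero.2 (Nat.factorial_ne_zero k)
  have hder : ∀ η : ℂ, ‖η‖ = 1 → ∀ j, ∀ s ∈ Set.Icc (0 : ℝ) (ε / 2),
      HasDerivAt (fun s : ℝ => iteratedFDeriv ℝ j F (s * η) (fun _ => η))
      (iteratedFDeriv ℝ (j + 1) F (s * η) (fun _ => η)) s := by
    intro η hη j s hs
    exact order_facts_ray hW hF η j s (hsub (hmem η hη s hs))
  have hzero : ∀ η : ℂ, ∀ j < k, iteratedFDeriv ℝ j F (((0 : ℝ) : ℂ) * η) (fun _ => η) = 0 := by
    intro η j hj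
    rw [Complex.ofReal_zero, zero_mul, hz j hj]
    rfl
  refine ⟨k, hk3, ?_, ?_⟩
  · refine ⟨M + 1, ε / 2, by linarith, by linarith, ?_⟩
    have hup : ∀ η : ℂ, ‖η‖ = 1 → ∀ s ∈ Set.Icc (0 : ℝ) (ε / 2), |F (s * η)| ≤ M * s ^ k := by
      intro η hη s hs
      have hb : ∀ s ∈ Set.Icc (0 : ℝ) (ε / 2),
          |iteratedFDeriv ℝ k F (s * η) (fun _ => η)| ≤ M := by
        intro s hs
        have h3 := (iteratedFDeriv ℝ k F (s * η)).le_opNorm (fun _ => η)
        rw [Real.norm_eq_abs] at h3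
        simp only [hη, Finset.prod_const_one, mul_one] at h3
        exact h3.trans (hM _ (hmem η hη s hs))
      have h3 := order_facts_mono k (fun j s => iteratedFDeriv ℝ j F (s * η) (fun _ => η))
        (ε / 2) (-M) (hder η hη) (hzero η) (fun s hs => (abs_le.1 (hb s hs)).1) s hs
      have h4 := order_facts_mono k (fun j s => - iteratedFDeriv ℝ j F (s * η) (fun _ => η))
        (ε / 2) (-M) (fun j s hs => (hder η hη j s hs).neg)
        (fun j hj => by rw [hzero η j hj, neg_zero])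
        (fun s hs => by have := (abs_le.1 (hb s hs)).2; linarith) s hs
      simp only [iteratedFDeriv_zero_apply] at h3 h4
      have hsk : 0 ≤ s ^ k := pow_nonneg hs.1 k
      have h5 : M * s ^ k / k.factorial ≤ M * s ^ k := div_le_self (mul_nonneg hM0 hsk) hfact
      have h6 : -M * s ^ k / k.factorial = -(M * s ^ k / k.factorial) := by ring
      rw [h6] at h3 h4
      rw [abs_le]
      constructor <;> linarith
    intro ζ hζ
    by_cases hζ0 : ζ = 0
    · rw [hζ0, hF0, abs_zero]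
      positivity
    · have hn : ‖ζ‖ ≠ 0 := norm_ne_zero_iff.2 hζ0
      have hη : ‖ζ / ‖ζ‖‖ = 1 := by
        rw [norm_div, Complex.norm_real, norm_norm, div_self hn]
      have h3 := hup (ζ / ‖ζ‖) hη ‖ζ‖ ⟨norm_nonneg _, hζ.le⟩
      have h4 : (‖ζ‖ : ℂ) * (ζ / ‖ζ‖) = ζ := by
        have : (‖ζ‖ : ℂ) ≠ 0 := by exact_mod_cast hn
        field_simp
      rw [h4] at h3
      have h5 : 0 ≤ ‖ζ‖ ^ k := by positivity
      linarith
  · have hex : ∃ z : ℂ, iteratedFDeriv ℝ k F 0 (fun _ => z) ≠ 0 := by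
      by_contra hcon
      push Not at hcon
      exact hkT (order_facts_polar hW h0 hF k hcon)
    obtain ⟨z, hzT⟩ := hex
    have hz0 : z ≠ 0 := by
      rintro rfl
      apply hzT
      exact (iteratedFDeriv ℝ k F 0).map_coord_zero (i := ⟨0, by omega⟩) rfl
    have hn : ‖z‖ ≠ 0 := norm_ne_zero_iff.2 hz0
    have hη : ‖z / ‖z‖‖ = 1 := by
      rw [norm_div, Complex.norm_real, norm_norm, div_self hn]
    have hTη : iteratedFDeriv ℝ k F 0 (fun _ => z / ‖z‖) ≠ 0 := by
      intro h3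
      apply hzT
      have h4 : (fun _ : Fin k => z) = fun i : Fin k => (fun _ : Fin k => ‖z‖) i • (fun _ : Fin k => z / ‖z‖) i := by
        funext i
        have : (‖z‖ : ℂ) ≠ 0 := by exact_mod_cast hn
        simp only [Complex.real_smul]
        field_simp
      rw [h4, ContinuousMultilinearMap.map_smul_univ, h3, smul_zero]
    generalize z / ‖z‖ = η at hη hTη
    refine ⟨η, hη, ?_⟩
    have hcont : ContinuousAt (fun s : ℝ => iteratedFDeriv ℝ k F (s * η) (fun _ => η)) 0 :=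
      (hder η hη k 0 ⟨le_rfl, by linarith⟩).continuousAt
    have hval : iteratedFDeriv ℝ k F (((0 : ℝ) : ℂ) * η) (fun _ => η) =
        iteratedFDeriv ℝ k F 0 (fun _ => η) := by
      rw [Complex.ofReal_zero, zero_mul]
    generalize hb : iteratedFDeriv ℝ k F 0 (fun _ => η) = b at hTη hval
    have hb2 : 0 < |b| / 2 := by positivity
    obtain ⟨δ, hδ, hδb⟩ := Metric.continuousAt_iff.1 hcont (|b| / 2) hb2
    have hnear : ∀ s ∈ Set.Icc (0 : ℝ) (min (ε / 2) (δ / 2)),
        |iteratedFDeriv ℝ k F (s * η) (fun _ => η) - b| < |b| / 2 := by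
      intro s hs
      have h3 : dist s 0 < δ := by
        rw [Real.dist_eq, sub_zero, abs_of_nonneg hs.1]
        have := hs.2.trans (min_le_right _ _)
        linarith
      have h4 := hδb h3
      rw [Real.dist_eq, hval] at h4
      exact h4
    have hder' : ∀ j, ∀ s ∈ Set.Icc (0 : ℝ) (min (ε / 2) (δ / 2)),
        HasDerivAt (fun s : ℝ => iteratedFDeriv ℝ j F (s * η) (fun _ => η))
        (iteratedFDeriv ℝ (j + 1) F (s * η) (fun _ => η)) s := by
      intro j s hs
      exact hder η hη j s ⟨hs.1, hs.2.trans (min_le_left _ _)⟩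
    refine ⟨|b| / 2 / k.factorial, min (ε / 2) (δ / 2), by positivity,
      lt_min (by linarith) (by linarith), ?_⟩
    intro s hs0 hsr
    have hsm : s ∈ Set.Icc (0 : ℝ) (min (ε / 2) (δ / 2)) := ⟨hs0.le, hsr.le⟩
    rcases lt_or_gt_of_ne hTη with hneg | hpos
    · have h4 := order_facts_mono k (fun j s => - iteratedFDeriv ℝ j F (s * η) (fun _ => η))
        (min (ε / 2) (δ / 2)) (|b| / 2) (fun j s hs => (hder' j s hs).neg)
        (fun j hj => by rw [hzero η j hj, neg_zero])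
        (fun s hs => by
          have h5 := (abs_lt.1 (hnear s hs)).2
          rw [abs_of_neg hneg] at h5 ⊢
          linarith) s hsm
      simp only [iteratedFDeriv_zero_apply] at h4
      have h5 := neg_le_abs (F (s * η))
      have h6 : |b| / 2 / k.factorial * s ^ k = |b| / 2 * s ^ k / k.factorial := by ring
      rw [h6]
      linarith
    · have h4 := order_facts_mono k (fun j s => iteratedFDeriv ℝ j F (s * η) (fun _ => η))
        (min (ε / 2) (δ / 2)) (|b| / 2) (fun j s hs => (hder' j s hs))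
        (fun j hj => hzero η j hj)
        (fun s hs => by
          have h5 := (abs_lt.1 (hnear s hs)).1
          rw [abs_of_pos hpos] at h5 ⊢
          linarith) s hsm
      simp only [iteratedFDeriv_zero_apply] at h4
      have h5 := le_abs_self (F (s * η))
      have h6 : |b| / 2 / k.factorial * s ^ k = |b| / 2 * s ^ k / k.factorial := by ring
      rw [h6]
      linarith


end Sq58
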