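import Mathlib
import Pool.Agent.Sq58.Core
import Pool.Agent.Sq58.Geom
import Pool.Agent.Sq58.Implicit
import Pool.Agent.Sq58.Order
import Pool.Agent.Sq58.Levi
set_option autoImplicit false
set_option linter.unusedSectionVars false

open Metric Set Filter Topology

namespace Sq58

/-- Existence of `n`-th roots. -/
theorem exists_root {a : ℝ} (ha : 0 < a) {n : ℕ} (hn : n ≠ 0) : ∃ b : ℝ, 0 < b ∧ b ^ n = a :=
  ⟨a ^ ((n : ℝ)⁻¹), Real.rpow_pos_of_pos ha _, Real.rpow_inv_natCast_pow ha.le hn⟩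

/-- The final numerical contradiction. -/
theorem final_contradiction {k : ℕ} (hk : 3 ≤ k) {C0 B : ℝ} (hC0 : 0 < C0) (hB : 0 < B)
    (hall : ∀ e : ℝ, 0 < e → e < 1 → ∀ b : ℝ, 0 < b → C0 * b ^ k = e ^ 2 / 16 →
      b ≤ 2 * B * e) : False := by
  set K := 16 * C0 * (2 * B) ^ k with hK
  have hKp : 0 < K := by positivity
  set e := 1 / (K + 2) with he
  have he0 : 0 < e := by positivity
  have he1 : e < 1 := by
    rw [he, div_lt_one (by positivity)]
    linarith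
  have hKe : K * e < 1 := by
    rw [he, mul_one_div, div_lt_one (by positivity)]
    linarith
  obtain ⟨b, hb, hbk⟩ := exists_root (a := e ^ 2 / 16 / C0) (by positivity) (n := k) (by omega)
  have h1 := hall e he0 he1 b hb (by rw [hbk]; field_simp)
  have h2 : b ^ k ≤ (2 * B * e) ^ k := by gcongr
  rw [hbk, mul_pow] at h2
  have h3 : e ^ k ≤ e ^ 3 := pow_le_pow_of_le_one he0.le he1.le hk
  have h4 : e ^ 2 / 16 / C0 ≤ (2 * B) ^ k * e ^ 3 := h2.trans (by gcongr)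
  have h5 : e ^ 2 ≤ K * e * e ^ 2 := by
    have h6 : e ^ 2 / 16 / C0 * (16 * C0) ≤ (2 * B) ^ k * e ^ 3 * (16 * C0) := by gcongr
    have h7 : e ^ 2 / 16 / C0 * (16 * C0) = e ^ 2 := by field_simp
    rw [h7] at h6
    calc e ^ 2 ≤ (2 * B) ^ k * e ^ 3 * (16 * C0) := h6
      _ = K * e * e ^ 2 := by rw [hK]; ring
  have h8 : 0 < e ^ 2 := by positivity
  nlinarith

variable {E : Type*} [NormedAddCommGroup E] [InnerProductSpace ℂ E] [FiniteDimensional ℂ E]

/-- Approach inside a paraboloid, in terms of the defining function. -/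
theorem parab_bound {D : Set E} (hDo : IsOpen D) {p N : E} {σ : E → ℝ} {r0 : ℝ}
    (H : LocData D p N σ r0) {n : E} (hn : fderiv ℝ σ 0 n ≠ 0)
    {z : ℕ → E} (hz : ∀ ν, z ν ∈ D) (hzp : Tendsto z atTop (𝓝 p))
    (hpar : ∃ C : ℝ, ∀ᶠ ν in atTop, ∃ s : ℝ,
      ‖z ν - p - s • n‖ ≤ C * Real.sqrt (infDist (z ν) (frontier D))) :
    ∃ K : ℝ, 0 ≤ K ∧ ∀ᶠ ν in atTop, σ (z ν - p) < 0 ∧
      ‖z ν - p‖ ≤ K * Real.sqrt (-σ (z ν - p)) := by
  obtain ⟨C, hC⟩ := hpar
  set lam := fderiv ℝ σ 0 with hlam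
  have h0mem : (0 : E) ∈ ball (0 : E) r0 := mem_ball_self H.pos
  have hx0 : Tendsto (fun ν => z ν - p) atTop (𝓝 0) := by
    have := hzp.sub_const p
    rwa [sub_self] at this
  have hσ0 : Tendsto (fun ν => σ (z ν - p)) atTop (𝓝 0) := by
    have := (H.diff h0mem).continuousAt.tendsto.comp hx0
    rwa [H.zero] at this
  set a := |lam n| with ha
  have hap : 0 < a := abs_pos.2 hn
  have hnp : 0 < ‖n‖ := by
    rw [norm_pos_iff]
    rintro rfl
    exact hn (map_zero _)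
  set ε := a / (2 * ‖n‖) with hε
  have hεp : 0 < ε := by positivity
  have hdiff : ∀ᶠ ν in atTop, |σ (z ν - p) - lam (z ν - p)| ≤ ε * ‖z ν - p‖ := by
    have h1 := (H.diff h0mem).hasFDerivAt.isLittleO
    have h2 := (h1.bound hεp)
    have h3 := hx0.eventually h2
    filter_upwards [h3] with ν hν
    simpa [H.zero, Real.norm_eq_abs] using hν
  have hball : ∀ᶠ ν in atTop, z ν - p ∈ ball (0 : E) r0 :=
    hx0.eventually_mem (isOpen_ball.mem_nhds h0mem)
  have hball2 : ∀ᶠ ν in atTop, (z ν - p) + (σ (z ν - p)) • N ∈ ball (0 : E) r0 := by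
    have h1 : Tendsto (fun ν => (z ν - p) + (σ (z ν - p)) • N) atTop (𝓝 (0 + (0 : ℝ) • N)) :=
      hx0.add (hσ0.smul_const N)
    rw [zero_smul, add_zero] at h1
    exact h1.eventually_mem (isOpen_ball.mem_nhds h0mem)
  have hsmall : ∀ᶠ ν in atTop, -1 < σ (z ν - p) := hσ0.eventually_const_lt (by norm_num)
  set L := ‖lam‖ with hL
  set C' := |C| * Real.sqrt ‖N‖ with hC'
  set K := C' + 2 * ‖n‖ / a * (1 + (ε + L) * C') with hK
  have hC'0 : 0 ≤ C' := by positivity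
  have hK0 : 0 ≤ K := by positivity
  refine ⟨K, hK0, ?_⟩
  filter_upwards [hC, hdiff, hball, hball2, hsmall] with ν h1 h2 h3 h4 h5
  set x := z ν - p with hx
  have hpx : p + x = z ν := by rw [hx]; abel
  have hneg : σ x < 0 := by
    rw [← H.mem x h3, hpx]; exact hz ν
  refine ⟨hneg, ?_⟩
  set h := -σ x with hh
  have hhp : 0 < h := by linarith
  have hσq : σ (x + (σ x) • N) = 0 := by rw [H.inv x h3 _ h4, sub_self]
  have hfr := H.frontier_mem hDo h4 hσq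
  have hdist : infDist (z ν) (frontier D) ≤ h * ‖N‖ := by
    refine (infDist_le_dist_of_mem hfr).trans ?_
    rw [dist_eq_norm]
    have : z ν - (p + (x + (σ x) • N)) = h • N := by
      rw [← hpx, hh]; module
    rw [this, norm_smul, Real.norm_of_nonneg hhp.le]
  obtain ⟨s, hs⟩ := h1
  set q := x - s • n with hq
  have hq1 : ‖q‖ ≤ C' * Real.sqrt h := by
    refine hs.trans ?_
    calc C * Real.sqrt (infDist (z ν) (frontier D))
        ≤ |C| * Real.sqrt (infDist (z ν) (frontier D)) := by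
          gcongr; exact le_abs_self C
      _ ≤ |C| * Real.sqrt (h * ‖N‖) := by gcongr
      _ = C' * Real.sqrt h := by rw [Real.sqrt_mul hhp.le, hC']; ring
  have hxq : x = q + s • n := by rw [hq]; abel
  have hhs : h ≤ Real.sqrt h := by
    have h6 : Real.sqrt h ^ 2 = h := Real.sq_sqrt hhp.le
    have h7 : Real.sqrt h ≤ 1 := by
      rw [Real.sqrt_le_one]
      linarith
    nlinarith [Real.sqrt_nonneg h]
  have hxn : ‖x‖ ≤ ‖q‖ + |s| * ‖n‖ := by
    rw [hxq]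
    refine (norm_add_le _ _).trans ?_
    rw [norm_smul, Real.norm_eq_abs]
  have hlx : lam x = lam q + s * lam n := by
    rw [hxq, map_add, map_smul, smul_eq_mul]
  have hs1 : |s| * a ≤ h + ε * ‖x‖ + L * ‖q‖ := by
    have e1 : s * lam n = -(σ x - lam x) + σ x - lam q := by rw [hlx]; ring
    have e2 : |s| * a = |s * lam n| := (abs_mul _ _).symm
    rw [e2, e1]
    have e3 : |lam q| ≤ L * ‖q‖ := lam.le_opNorm q
    have e4 : |σ x| = h := by rw [abs_of_neg hneg]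
    calc |-(σ x - lam x) + σ x - lam q| ≤ |-(σ x - lam x) + σ x| + |lam q| := abs_sub _ _
      _ ≤ |-(σ x - lam x)| + |σ x| + |lam q| := by gcongr; exact abs_add_le _ _
      _ ≤ _ := by rw [abs_neg]; linarith
  have hs2 : |s| * a ≤ 2 * (h + (ε + L) * ‖q‖) := by
    have e1 : ε * ‖x‖ ≤ ε * ‖q‖ + |s| * a / 2 := by
      calc ε * ‖x‖ ≤ ε * (‖q‖ + |s| * ‖n‖) := by gcongr
        _ = ε * ‖q‖ + |s| * a / 2 := by rw [hε]; field_simp
    nlinarith
  have hs3 : |s| ≤ 2 / a * (h + (ε + L) * ‖q‖) := by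
    rw [div_mul_eq_mul_div, le_div_iff₀ hap]
    linarith
  have hsq0 := Real.sqrt_nonneg h
  calc ‖x‖ ≤ ‖q‖ + |s| * ‖n‖ := hxn
    _ ≤ C' * Real.sqrt h + (2 / a * (Real.sqrt h + (ε + L) * (C' * Real.sqrt h))) * ‖n‖ := by
        have : |s| ≤ 2 / a * (Real.sqrt h + (ε + L) * (C' * Real.sqrt h)) := by
          refine hs3.trans ?_
          gcongr
        gcongr
    _ = K * Real.sqrt h := by rw [hK]; ring

theorem main_abs {D : Set E} (hDo : IsOpen D) (hDc : Convex ℝ D)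
    {p : E} (hp : p ∈ frontier D) {U : Set E} {ρ : E → ℝ} (hU : IsOpen U) (hpU : p ∈ U)
    (hρ : ContDiffOn ℝ (⊤ : ℕ∞) ρ U) (hDU : ∀ z ∈ U, z ∈ D ↔ ρ z < 0)
    {n : E} (hn : fderiv ℝ ρ p n ≠ 0)
    {z : ℕ → E} (hz : ∀ ν, z ν ∈ D) (hzp : Tendsto z atTop (𝓝 p))
    (hpar : ∃ C : ℝ, ∀ᶠ ν in atTop, ∃ s : ℝ,
      ‖z ν - p - s • n‖ ≤ C * Real.sqrt (infDist (z ν) (frontier D)))
    (hsq : ∀ R : ℝ, 0 < R → R < 1 → ∀ᶠ ν in atTop, ∃ f g : E → E, DifferentiableOn ℂ f D ∧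
      MapsTo f D (ball 0 1) ∧ f (z ν) = 0 ∧ DifferentiableOn ℂ g (ball 0 R) ∧
      MapsTo g (ball 0 R) D ∧ ∀ x ∈ D, ‖f x‖ < R → g (f x) = x)
    {w : E} (hft : ∃ k : ℕ, 1 ≤ k ∧ iteratedFDeriv ℝ k (fun ζ : ℂ => ρ (p + ζ • w)) 0 ≠ 0)
    (h1 : fderiv ℝ ρ p w = 0) (h2 : fderiv ℝ ρ p (Complex.I • w) = 0) :
    0 < iteratedFDeriv ℝ 2 ρ p ![w, w] +
      iteratedFDeriv ℝ 2 ρ p ![Complex.I • w, Complex.I • w] := by
  have : CompleteSpace E := FiniteDimensional.complete ℂ E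
  by_contra hcon
  push Not at hcon
  have hρc : ContinuousAt ρ p := (hρ.contDiffAt (hU.mem_nhds hpU)).continuousAt
  have hρp : ρ p = 0 := by
    rw [hDo.frontier_eq] at hp
    have hge : 0 ≤ ρ p := by
      by_contra hc
      push Not at hc
      exact hp.2 ((hDU p hpU).2 hc)
    have hle : ρ p ≤ 0 := by
      by_contra hc
      push Not at hc
      have h3 : ∀ᶠ y in 𝓝 p, 0 < ρ y ∧ y ∈ U :=
        (hρc.eventually_const_lt hc).and (hU.mem_nhds hpU)
      obtain ⟨y, hyD, hy⟩ := (mem_closure_iff_frequently.1 hp.1).and_eventually h3 |>.exists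
      have := (hDU y hy.2).1 hyD
      linarith [hy.1]
    linarith
  obtain ⟨hl1, hl2⟩ := levi_zero hDc hU hpU hρ hρp hDU h1 h2 hcon
  -- order of vanishing
  have hlc : Continuous (fun ζ : ℂ => p + ζ • w) := by fun_prop
  obtain ⟨k, hk, ⟨C1, r1, hC1, hr1, hup⟩, η, hη, c1, r1', hc1, hr1', hlow⟩ :=
    order_facts (F := fun ζ : ℂ => ρ (p + ζ • w)) (W := (fun ζ : ℂ => p + ζ • w) ⁻¹' U)
      (hU.preimage hlc) (by simpa using hpU)
      (by
        have hl : ContDiff ℝ (⊤ : ℕ∞) (fun ζ : ℂ => p + ζ • w) := by fun_prop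
        exact hρ.comp hl.contDiffOn (fun ζ hζ => hζ)) (by simpa using hρp) hft hl1 hl2
  -- local data
  set N : E := (-(fderiv ℝ ρ p n)⁻¹) • n with hN
  have hN1 : fderiv ℝ ρ p N = -1 := by
    rw [hN, map_smul, smul_eq_mul, neg_mul, inv_mul_cancel₀ hn]
  obtain ⟨σ, r0, hr0, hs, hσ0, hσd, hconv, hmem, hinv, hcomp⟩ :=
    exists_convex_defining hDc hU hpU (hρ.of_le (show ((3 : ℕ∞) : WithTop ℕ∞) ≤ ((⊤ : ℕ∞) : WithTop ℕ∞) from WithTop.coe_le_coe.2 le_top)) hρp hDU hN1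
  have H : LocData D p N σ r0 := ⟨hr0, hs, hσ0, hconv, hmem, hinv⟩
  rw [← hσd] at h1 h2 hn
  obtain ⟨s0, hs0, hs01, hs02, hs03⟩ : ∃ s0 : ℝ, 0 < s0 ∧ s0 ≤ r1 ∧ s0 ≤ r1' ∧ s0 * ‖w‖ < r0 := by
    refine ⟨min (min r1 r1') (r0 / (2 * (‖w‖ + 1))), by positivity,
      (min_le_left _ _).trans (min_le_left _ _), (min_le_left _ _).trans (min_le_right _ _), ?_⟩
    calc min (min r1 r1') (r0 / (2 * (‖w‖ + 1))) * ‖w‖ ≤ (r0 / (2 * (‖w‖ + 1))) * (‖w‖ + 1) := by
          gcongr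
          · exact min_le_right _ _
          · linarith
      _ = r0 / 2 := by field_simp
      _ < r0 := by linarith
  have hζmem : ∀ ζ : ℂ, ‖ζ‖ < s0 → ζ • w ∈ ball (0 : E) r0 := by
    intro ζ hζ
    rw [mem_ball, dist_zero_right, norm_smul]
    calc ‖ζ‖ * ‖w‖ ≤ s0 * ‖w‖ := by gcongr
      _ < r0 := hs03
  have hup' : ∀ ζ : ℂ, ‖ζ‖ < s0 → |σ (ζ • w)| ≤ (2 * C1) * ‖ζ‖ ^ k := by
    intro ζ hζ
    have := (hcomp _ (hζmem ζ hζ)).1
    have h3 := hup ζ (by linarith)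
    linarith
  have hlow' : ∀ s : ℝ, 0 < s → s < s0 → (c1 / 2) * s ^ k ≤ |σ (((s : ℂ) * η) • w)| := by
    intro s hsp hss
    have hn1 : ‖(s : ℂ) * η‖ < s0 := by
      rw [norm_mul, hη, mul_one, Complex.norm_real, Real.norm_of_nonneg hsp.le]; exact hss
    have := (hcomp _ (hζmem _ hn1)).2
    have h3 := hlow s hsp (by linarith)
    linarith
  obtain ⟨C, r, u0, hC, hr, hrr0, hu0, hT, hM, hnn⟩ := H.mixed h1 h2 hk (C0 := 2 * C1)
    (by positivity) hs0 hup'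
  -- the constant `B`
  obtain ⟨B, hB, hBk⟩ := exists_root (a := 4 / c1) (by positivity) (n := k) (by omega)
  have hB2 : 2 ≤ (c1 / 2) * B ^ k := by
    rw [hBk]; apply le_of_eq; field_simp; norm_num
  -- the sequence
  obtain ⟨Cp, hCp, hseq⟩ := parab_bound hDo H hn hz hzp hpar
  have h0mem : (0 : E) ∈ ball (0 : E) r0 := mem_ball_self hr0
  have hx0 : Tendsto (fun ν => z ν - p) atTop (𝓝 0) := by
    have := hzp.sub_const p
    rwa [sub_self] at this
  have hσt : Tendsto (fun ν => σ (z ν - p)) atTop (𝓝 0) := by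
    have := (H.diff h0mem).continuousAt.tendsto.comp hx0
    rwa [hσ0] at this
  set ω : ℕ → ℝ := fun ν => (-σ (z ν - p)) ^ (((2 * k : ℕ) : ℝ)⁻¹) with hω
  have hωt : Tendsto ω atTop (𝓝[>] 0) := by
    rw [tendsto_nhdsWithin_iff]
    constructor
    · have h3 : Tendsto (fun ν => -σ (z ν - p)) atTop (𝓝 0) := by
        simpa using hσt.neg
      have h4 := h3.rpow_const (p := ((2 * k : ℕ) : ℝ)⁻¹) (Or.inr (by positivity))
      rwa [Real.zero_rpow (by positivity)] at h4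
    · filter_upwards [hseq] with ν hν
      exact Real.rpow_pos_of_pos (by linarith [hν.1]) _
  have hball : ∀ᶠ ν in atTop, z ν - p ∈ ball (0 : E) r0 :=
    hx0.eventually_mem (isOpen_ball.mem_nhds h0mem)
  have hball2 : ∀ᶠ ν in atTop, (z ν - p) + (σ (z ν - p)) • N ∈ ball (0 : E) r0 := by
    have h1 : Tendsto (fun ν => (z ν - p) + (σ (z ν - p)) • N) atTop (𝓝 (0 + (0 : ℝ) • N)) :=
      hx0.add (hσt.smul_const N)
    rw [zero_smul, add_zero] at h1
    exact h1.eventually_mem (isOpen_ball.mem_nhds h0mem)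
  -- main inequality
  apply final_contradiction hk (C0 := 2 * C1) (B := B) (by positivity) hB
  intro e he0 he1 b hb hbk
  set t := Real.sqrt (1 - e ^ 2) with ht
  have he2 : e ^ 2 < 1 := by nlinarith
  have ht2 : t ^ 2 = 1 - e ^ 2 := Real.sq_sqrt (by linarith)
  have ht0 : 0 < t := Real.sqrt_pos.2 (by linarith)
  have ht1 : t < 1 := by
    by_contra hc
    push Not at hc
    have : 0 < e ^ 2 := by positivity
    nlinarith
  have hE := geomE H hk (v := w) (C0 := 2 * C1) (by positivity) hs0 hup' hC hr hu0 hT hM ht1 he0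
    ht2 hb hbk.le hCp
  have hF := geomF H hk (v := w) hC hr hu0 hM hnn hη hs0 hlow' hB hB2 hCp
  have hE' := hωt.eventually hE
  have hF' := hωt.eventually hF
  have hωpos : ∀ᶠ ν in atTop, 0 < ω ν := hωt.eventually self_mem_nhdsWithin
  have hR : ∀ R : ℝ, 0 < R → R < 1 → R * b ≤ 2 * B * Real.sqrt (1 - (R * t) ^ 2) := by
    intro R hR0 hR1
    obtain ⟨ν, ⟨f, g, hf, hfm, hf0, hg, hgm, hgf⟩, hνE, hνF, hνs, hνb, hνb2, hνω⟩ :=
      ((hsq R hR0 hR1).and (hE'.and (hF'.and (hseq.and (hball.and (hball2.and hωpos)))))).exists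
    have hωk : ω ν ^ (2 * k) = -σ (z ν - p) := by
      simp only [hω]
      exact Real.rpow_inv_natCast_pow (by linarith [hνs.1]) (by omega)
    have hωk2 : Real.sqrt (-σ (z ν - p)) = ω ν ^ k := by
      rw [← hωk, two_mul, pow_add, Real.sqrt_mul_self (by positivity)]
    have hxω : ‖z ν - p‖ ≤ Cp * ω ν ^ k := by rw [← hωk2]; exact hνs.2
    have hσω : σ (z ν - p) = -ω ν ^ (2 * k) := by rw [hωk]; ring
    have hpz : p + (z ν - p) = z ν := by abel
    obtain ⟨Λ, m, hΛm, hmN, hΛD, hAm⟩ := H.functional hDo hDc hνb hνb2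
    have hdisc := hνE (z ν - p) hxω hσω m hmN hAm
    have hout := hνF (z ν - p) hxω hσω
    rw [hpz] at hdisc hout hΛD
    have key := core hDo hDc hR0 hf hfm hg hgm hgf (hz ν) hf0 (Λ := Λ) (h := -σ (z ν - p))
      (by linarith [hνs.1]) hΛD hΛm ht0 ht1 (v := w) (r := b * ω ν ^ 2) (by positivity)
      (by
        intro w' hw' ζ hζ
        have := hdisc w' hw' ζ hζ
        rwa [hωk] at this) hout
    have hn1 : ‖((B * ω ν ^ 2 : ℝ) : ℂ) * η‖ = B * ω ν ^ 2 := by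
      rw [norm_mul, hη, mul_one, Complex.norm_real, Real.norm_of_nonneg (by positivity)]
    rw [hn1] at key
    have hω2 : 0 < ω ν ^ 2 := by positivity
    have e1 : R * (b * ω ν ^ 2) = (R * b) * ω ν ^ 2 := by ring
    have e2 : 2 * (B * ω ν ^ 2) * Real.sqrt (1 - (R * t) ^ 2)
        = (2 * B * Real.sqrt (1 - (R * t) ^ 2)) * ω ν ^ 2 := by ring
    rw [e1, e2] at key
    exact le_of_mul_le_mul_right key hω2
  -- let `R → 1`
  have hlim1 : Tendsto (fun R : ℝ => R * b) (𝓝[<] 1) (𝓝 (1 * b)) := by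
    apply Tendsto.mono_left _ nhdsWithin_le_nhds
    apply Continuous.tendsto; fun_prop
  have hlim2 : Tendsto (fun R : ℝ => 2 * B * Real.sqrt (1 - (R * t) ^ 2)) (𝓝[<] 1)
      (𝓝 (2 * B * Real.sqrt (1 - (1 * t) ^ 2))) := by
    apply Tendsto.mono_left _ nhdsWithin_le_nhds
    apply Continuous.tendsto (f := fun R : ℝ => 2 * B * Real.sqrt (1 - (R * t) ^ 2)); fun_prop
  have hfin := le_of_tendsto_of_tendsto hlim1 hlim2 (by
    filter_upwards [Ioo_mem_nhdsLT (show (0 : ℝ) < 1 by norm_num)] with R hR'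
    exact hR R hR'.1 hR'.2)
  rw [one_mul, one_mul, ht2] at hfin
  have e3 : Real.sqrt (1 - (1 - e ^ 2)) = e := by
    have : 1 - (1 - e ^ 2) = e ^ 2 := by ring
    rw [this, Real.sqrt_sq he0.le]
  rwa [e3] at hfin

end Sq58
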